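import Mathlib

set_option autoImplicit false

namespace Pool.Agent.Q126.SE

open Matrix

/-- a square matrix over the nonnegative integers, of any finite size -/
abbrev SqMat := Σ n : ℕ, Matrix (Fin n) (Fin n) ℕ

/-- elementary equivalence: `A = R S` and `B = S R` -/
def Elem (X Y : SqMat) : Prop :=
  ∃ R : Matrix (Fin X.1) (Fin Y.1) ℕ, ∃ S : Matrix (Fin Y.1) (Fin X.1) ℕ,
    X.2 = R * S ∧ Y.2 = S * R

/-- strong shift equivalence over the nonnegative integers -/
def SSE (X Y : SqMat) : Prop := Relation.TransGen Elem X Y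

variable {V W J : Type} [Fintype V] [Fintype W] [Fintype J]

/-- elementary equivalence for arbitrary finite index types -/
def El {V W : Type} [Fintype V] [Fintype W] (A : Matrix V V ℕ) (B : Matrix W W ℕ) : Prop :=
  ∃ (R : Matrix V W ℕ) (S : Matrix W V ℕ), A = R * S ∧ B = S * R

/-- the matrix with rows and columns numbered -/
noncomputable def fin {V : Type} [Fintype V] (A : Matrix V V ℕ) : SqMat :=
  ⟨Fintype.card V, A.submatrix (Fintype.equivFin V).symm (Fintype.equivFin V).symm⟩

/-- strong shift equivalence for arbitrary finite index types -/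
def Sh {V W : Type} [Fintype V] [Fintype W] (A : Matrix V V ℕ) (B : Matrix W W ℕ) : Prop :=
  SSE (fin A) (fin B)

theorem Elem.symm {X Y : SqMat} (h : Elem X Y) : Elem Y X := by
  obtain ⟨R, S, h1, h2⟩ := h
  exact ⟨S, R, h2, h1⟩

theorem Elem.refl (X : SqMat) : Elem X X := ⟨X.2, 1, by simp, by simp⟩

theorem SSE.refl (X : SqMat) : SSE X X := Relation.TransGen.single (Elem.refl X)

theorem SSE.trans {X Y Z : SqMat} (h : SSE X Y) (h' : SSE Y Z) : SSE X Z :=
  Relation.TransGen.trans h h'

theorem SSE.symm {X Y : SqMat} (h : SSE X Y) : SSE Y X := by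
  unfold SSE at *
  induction h with
  | single h => exact Relation.TransGen.single h.symm
  | tail _ h ih => exact Relation.TransGen.trans (Relation.TransGen.single h.symm) ih

theorem El.symm {A : Matrix V V ℕ} {B : Matrix W W ℕ} (h : El A B) : El B A := by
  obtain ⟨R, S, h1, h2⟩ := h
  exact ⟨S, R, h2, h1⟩

theorem El.elem {A : Matrix V V ℕ} {B : Matrix W W ℕ} (h : El A B) : Elem (fin A) (fin B) := by
  obtain ⟨R, S, h1, h2⟩ := h
  subst h1 h2
  exact ⟨R.submatrix (Fintype.equivFin V).symm (Fintype.equivFin W).symm,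
    S.submatrix (Fintype.equivFin W).symm (Fintype.equivFin V).symm,
    (Matrix.submatrix_mul_equiv R S (Fintype.equivFin V).symm (Fintype.equivFin W).symm
      (Fintype.equivFin V).symm).symm,
    (Matrix.submatrix_mul_equiv S R (Fintype.equivFin W).symm (Fintype.equivFin V).symm
      (Fintype.equivFin W).symm).symm⟩

theorem El.sh {A : Matrix V V ℕ} {B : Matrix W W ℕ} (h : El A B) : Sh A B :=
  Relation.TransGen.single h.elem

theorem Sh.refl (A : Matrix V V ℕ) : Sh A A := SSE.refl _

theorem Sh.symm {A : Matrix V V ℕ} {B : Matrix W W ℕ} (h : Sh A B) : Sh B A := SSE.symm h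

theorem Sh.trans {A : Matrix V V ℕ} {B : Matrix W W ℕ} {C : Matrix J J ℕ} (h : Sh A B)
    (h' : Sh B C) : Sh A C := SSE.trans h h'

theorem el_reindex [DecidableEq V] (A : Matrix V V ℕ) (e : W ≃ V) : El A (A.submatrix e e) := by
  refine ⟨A.submatrix id e, (1 : Matrix V V ℕ).submatrix e id, ?_, ?_⟩
  · rw [Matrix.submatrix_mul_equiv, Matrix.mul_one]; simp
  · have := Matrix.submatrix_mul_equiv (1 : Matrix V V ℕ) A e (Equiv.refl V) e
    simp only [Equiv.coe_refl] at this
    rw [this, Matrix.one_mul]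

theorem sse_iff (X Y : SqMat) : SSE X Y ↔ Sh X.2 Y.2 := by
  have key : ∀ X : SqMat, SSE X (fin X.2) := by
    intro X
    refine Relation.TransGen.single ?_
    exact el_reindex X.2 (Fintype.equivFin (Fin X.1)).symm
  exact ⟨fun h => SSE.trans (key X).symm (SSE.trans h (key Y)),
    fun h => SSE.trans (key X) (SSE.trans h (key Y).symm)⟩

end Pool.Agent.Q126.SE
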