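import Pool.Agent.Q126.SE.Tow

set_option autoImplicit false

namespace Pool.Agent.Q126.SE

open Matrix Finset

variable {V W J : Type} [Fintype V] [Fintype W] [Fintype J] [DecidableEq V] [DecidableEq W]
  [DecidableEq J]

variable {k : ℕ} [NeZero k]

/-- the cyclic block matrix with the blocks `M i` from level `i` to level `i + 1` -/
def cyc (M : ZMod k → Matrix V V ℕ) : Matrix (ZMod k × V) (ZMod k × V) ℕ := fun p q =>
  if q.1 = p.1 + 1 then M p.1 p.2 q.2 else 0

/-- the tower -/
def T (k : ℕ) [NeZero k] (A : Matrix V V ℕ) : Matrix (ZMod k × V) (ZMod k × V) ℕ :=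
  cyc fun i => if i = 0 then A else 1

omit [Fintype V] [DecidableEq V] [NeZero k] in
theorem cyc_ne {M : ZMod k → Matrix V V ℕ} {p q : ZMod k × V} (h : cyc M p q ≠ 0) :
    q.1 = p.1 + 1 ∧ M p.1 p.2 q.2 ≠ 0 := by
  unfold cyc at h
  split_ifs at h with h1
  · exact ⟨h1, h⟩
  · exact absurd rfl h

theorem graded_cyc (M : ZMod k → Matrix V V ℕ) : Graded (cyc M) k Prod.fst :=
  fun _ _ _ _ h => (cyc_ne h).1

omit [DecidableEq V] in
theorem exch (X Y : ZMod k → Matrix V V ℕ) :
    El (cyc fun i => X i * Y i) (cyc fun i => Y i * X (i + 1)) := by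
  classical
  refine ⟨fun p q => if q.1 = p.1 then X p.1 p.2 q.2 else 0, cyc Y, ?_, ?_⟩
  · ext p q
    show (if q.1 = p.1 + 1 then (X p.1 * Y p.1) p.2 q.2 else 0) =
      ∑ r : ZMod k × V, (if r.1 = p.1 then X p.1 p.2 r.2 else 0) *
        (if q.1 = r.1 + 1 then Y r.1 r.2 q.2 else 0)
    rw [Fintype.sum_prod_type, Finset.sum_eq_single p.1]
    · by_cases h : q.1 = p.1 + 1
      · simp [h, Matrix.mul_apply]
      · simp [h]
    · intro b _ hb
      simp [hb]
    · simp
  · ext p q
    show (if q.1 = p.1 + 1 then (Y p.1 * X (p.1 + 1)) p.2 q.2 else 0) =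
      ∑ r : ZMod k × V, (if r.1 = p.1 + 1 then Y p.1 p.2 r.2 else 0) *
        (if q.1 = r.1 then X r.1 r.2 q.2 else 0)
    rw [Fintype.sum_prod_type, Finset.sum_eq_single (p.1 + 1)]
    · by_cases h : q.1 = p.1 + 1
      · simp [h, Matrix.mul_apply]
      · simp [h]
    · intro b _ hb
      simp [hb]
    · simp

/-- products of consecutive blocks -/
def prodTo (M : ℕ → Matrix V V ℕ) : ℕ → Matrix V V ℕ
  | 0 => M 0
  | j + 1 => prodTo M j * M (j + 1)

theorem val_add_one (i : ZMod k) : (i + 1).val = if i.val + 1 = k then 0 else i.val + 1 := by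
  obtain ⟨m, rfl⟩ : ∃ m, k = m + 1 := ⟨k - 1, by have := NeZero.ne k; omega⟩
  have h1 : (i + 1).val = (i.val + 1) % (m + 1) := by
    rw [ZMod.val_add]
    rcases Nat.eq_zero_or_pos m with hm | hm
    · subst hm; simp [Nat.mod_one]
    · rw [ZMod.val_one'' (by omega)]
  have h2 := ZMod.val_lt i
  rw [h1]
  split_ifs with h
  · rw [h, Nat.mod_self]
  · exact Nat.mod_eq_of_lt (by omega)

theorem collapse_aux (M : ℕ → Matrix V V ℕ) (hM : ∀ m, k ≤ m → M m = 1) (j : ℕ) :
    Sh (cyc fun i : ZMod k => M i.val)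
      (cyc fun i : ZMod k => if i = 0 then prodTo M j else M (i.val + j)) := by
  induction j with
  | zero =>
    have e : (fun i : ZMod k => M i.val) =
        fun i : ZMod k => if i = 0 then prodTo M 0 else M (i.val + 0) := by
      funext i
      split_ifs with h
      · subst h; simp [prodTo]
      · rfl
    rw [← e]
    exact Sh.refl _
  | succ j ih =>
    refine ih.trans ?_
    have h := (exch (k := k) (fun i => if i = 0 then (1 : Matrix V V ℕ) else M (i.val + j))
      (fun i => if i = 0 then prodTo M j else 1)).sh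
    have e1 : (fun i : ZMod k => (if i = 0 then (1 : Matrix V V ℕ) else M (i.val + j)) *
        (if i = 0 then prodTo M j else 1)) =
        fun i : ZMod k => if i = 0 then prodTo M j else M (i.val + j) := by
      funext i
      split_ifs with h
      · rw [Matrix.one_mul]
      · rw [Matrix.mul_one]
    have e2 : (fun i : ZMod k => (if i = 0 then prodTo M j else 1) *
        (if i + 1 = 0 then (1 : Matrix V V ℕ) else M ((i + 1).val + j))) =
        fun i : ZMod k => if i = 0 then prodTo M (j + 1) else M (i.val + (j + 1)) := by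
      funext i
      have hv := val_add_one i
      have hi := ZMod.val_lt i
      have hz : i + 1 = 0 ↔ i.val + 1 = k := by
        rw [← ZMod.val_eq_zero, hv]
        split_ifs with h
        · exact ⟨fun _ => h, fun _ => rfl⟩
        · exact ⟨fun h' => h'.elim, fun h' => absurd h' h⟩
      by_cases h0 : i = 0
      · subst h0
        rw [if_pos rfl, if_pos rfl]
        by_cases h1 : (0 : ZMod k) + 1 = 0
        · rw [if_pos h1]
          have := hz.1 h1
          rw [ZMod.val_zero] at this
          show _ = prodTo M j * M (j + 1)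
          rw [hM (j + 1) (by omega)]
        · rw [if_neg h1, hv, if_neg (fun h => h1 (hz.2 h)), ZMod.val_zero]
          show _ = prodTo M j * M (j + 1)
          rw [show 0 + 1 + j = j + 1 by ring]
      · rw [if_neg h0, if_neg h0, Matrix.one_mul]
        by_cases h1 : i + 1 = 0
        · rw [if_pos h1, hM _ (by have := hz.1 h1; omega)]
        · rw [if_neg h1, hv, if_neg (fun h => h1 (hz.2 h)),
            show i.val + 1 + j = i.val + (j + 1) by ring]
    rwa [e1, e2] at h

theorem collapse (M : ℕ → Matrix V V ℕ) (hM : ∀ m, k ≤ m → M m = 1) :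
    Sh (cyc fun i : ZMod k => M i.val) (T k (prodTo M (k - 1))) := by
  have h := collapse_aux M hM (k - 1)
  have e : (fun i : ZMod k => if i = 0 then prodTo M (k - 1) else M (i.val + (k - 1))) =
      fun i : ZMod k => if i = 0 then prodTo M (k - 1) else 1 := by
    funext i
    split_ifs with h
    · rfl
    · refine hM _ ?_
      have : i.val ≠ 0 := fun h' => h ((ZMod.val_eq_zero i).1 h')
      omega
  rw [e] at h
  exact h

omit [DecidableEq V] [DecidableEq W] in
theorem el_pad {C : Matrix V V ℕ} {C' : Matrix W W ℕ} (f : V → W) (hf : Function.Injective f)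
    (h1 : ∀ a b, C' (f a) (f b) = C a b) (h2 : ∀ x y, C' x y ≠ 0 → (∃ a, f a = x) ∧ ∃ b, f b = y) :
    El C C' := by
  classical
  refine ⟨fun a y => C' (f a) y, fun x a => if x = f a then 1 else 0, ?_, ?_⟩
  · ext a b
    show C a b = ∑ y, C' (f a) y * (if y = f b then 1 else 0)
    simp [h1]
  · ext x y
    show C' x y = ∑ a, (if x = f a then 1 else 0) * C' (f a) y
    by_cases hx : ∃ a, f a = x
    · obtain ⟨a, rfl⟩ := hx
      rw [Finset.sum_eq_single a]
      · simp
      · intro b _ hb
        rw [if_neg (fun e => hb (hf e).symm), zero_mul]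
      · simp
    · have hz : C' x y = 0 := by
        by_contra hne
        exact hx (h2 x y hne).1
      rw [hz, eq_comm]
      refine Finset.sum_eq_zero (fun a _ => ?_)
      rw [if_neg (fun e => hx ⟨a, e.symm⟩), zero_mul]

theorem tower_pad (A : Matrix V V ℕ) (A' E : Matrix W W ℕ) (f : V → W)
    (hf : Function.Injective f) (h1 : ∀ a b, A' (f a) (f b) = A a b)
    (h2 : ∀ x y, A' x y ≠ 0 → (∃ a, f a = x) ∧ ∃ b, f b = y)
    (g1 : ∀ a b, E (f a) (f b) = (1 : Matrix V V ℕ) a b)
    (g2 : ∀ x y, E x y ≠ 0 → (∃ a, f a = x) ∧ ∃ b, f b = y) :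
    Sh (T k A) (T k A') := by
  have hAE : A' * E = A' := by
    ext x y
    rw [Matrix.mul_apply]
    by_cases hy : ∃ b, f b = y
    · obtain ⟨b, rfl⟩ := hy
      rw [Finset.sum_eq_single (f b)]
      · rw [g1, Matrix.one_apply_eq, mul_one]
      · intro z _ hz
        by_contra hne
        obtain ⟨⟨c, rfl⟩, _⟩ := g2 _ _ (right_ne_zero_of_mul hne)
        rw [g1, Matrix.one_apply_ne (fun e => hz (congrArg f e)), mul_zero] at hne
        exact hne rfl
      · simp
    · have hz : A' x y = 0 := by
        by_contra hne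
        exact hy (h2 x y hne).2
      rw [hz]
      refine Finset.sum_eq_zero (fun z _ => ?_)
      by_contra hne
      exact hy (g2 _ _ (right_ne_zero_of_mul hne)).2
  let M : ℕ → Matrix W W ℕ := fun m => if m = 0 then A' else if m < k then E else 1
  have hk0 : 0 < k := Nat.pos_of_ne_zero (NeZero.ne k)
  have hprod : ∀ j, j < k → prodTo M j = A' := by
    intro j
    induction j with
    | zero => intro _; rfl
    | succ j ih =>
      intro hj
      show prodTo M j * M (j + 1) = A'
      rw [ih (by omega)]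
      show A' * (if j + 1 = 0 then A' else if j + 1 < k then E else 1) = A'
      rw [if_neg (Nat.succ_ne_zero j), if_pos hj, hAE]
  have hcol := collapse (k := k) M (fun m hm => by
    show (if m = 0 then A' else if m < k then E else 1) = 1
    rw [if_neg (by omega), if_neg (by omega)])
  rw [hprod (k - 1) (by omega)] at hcol
  refine Sh.trans (El.sh ?_) hcol
  refine el_pad (fun p : ZMod k × V => (p.1, f p.2)) ?_ ?_ ?_
  · rintro ⟨i, a⟩ ⟨j, b⟩ h
    have e1 : i = j := congrArg Prod.fst h
    have e2 : f a = f b := congrArg Prod.snd h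
    rw [e1, hf e2]
  · rintro ⟨i, a⟩ ⟨j, b⟩
    have hi := ZMod.val_lt i
    show (if j = i + 1 then M i.val (f a) (f b) else 0) =
      if j = i + 1 then (if i = 0 then A else 1) a b else 0
    by_cases hij : j = i + 1
    · rw [if_pos hij, if_pos hij]
      show (if i.val = 0 then A' else if i.val < k then E else 1) (f a) (f b) = _
      by_cases h0 : i = 0
      · subst h0
        rw [if_pos ZMod.val_zero, if_pos rfl, h1]
      · rw [if_neg (fun h => h0 ((ZMod.val_eq_zero i).1 h)), if_neg h0, if_pos hi, g1]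
    · rw [if_neg hij, if_neg hij]
  · rintro ⟨i, x⟩ ⟨j, y⟩ h
    have hi := ZMod.val_lt i
    obtain ⟨_, h⟩ := cyc_ne h
    have h' : (if i.val = 0 then A' else if i.val < k then E else 1) x y ≠ 0 := h
    have h3 : (∃ a, f a = x) ∧ ∃ b, f b = y := by
      split_ifs at h' with h0
      · exact h2 x y h'
      · exact g2 x y h'
    obtain ⟨⟨a, rfl⟩, ⟨b, rfl⟩⟩ := h3
    exact ⟨⟨(i, a), rfl⟩, ⟨(j, b), rfl⟩⟩

theorem tower_el {A : Matrix V V ℕ} {B : Matrix W W ℕ} (h : El A B) : Sh (T k A) (T k B) := by
  obtain ⟨U, R, h1, h2⟩ := h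
  subst h1 h2
  have hk0 : 0 < k := Nat.pos_of_ne_zero (NeZero.ne k)
  let U' : Matrix (V ⊕ W) (V ⊕ W) ℕ := fromBlocks 0 U 0 0
  let R' : Matrix (V ⊕ W) (V ⊕ W) ℕ := fromBlocks 0 0 R 0
  have hUR : U' * R' = fromBlocks (U * R) 0 0 0 := by
    simp [U', R', fromBlocks_multiply]
  have hRU : R' * U' = fromBlocks 0 0 0 (R * U) := by
    simp [U', R', fromBlocks_multiply]
  have s1 : Sh (T k (U * R)) (T k (U' * R')) := by
    refine tower_pad (U * R) (U' * R') (fromBlocks 1 0 0 0) Sum.inl Sum.inl_injective ?_ ?_ ?_ ?_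
    · intro a b; rw [hUR]; rfl
    · rintro (x | x) (y | y) h
      · exact ⟨⟨x, rfl⟩, ⟨y, rfl⟩⟩
      all_goals (rw [hUR] at h; simp at h)
    · intro a b; rfl
    · rintro (x | x) (y | y) h
      · exact ⟨⟨x, rfl⟩, ⟨y, rfl⟩⟩
      all_goals simp at h
  have s2 : Sh (T k (R * U)) (T k (R' * U')) := by
    refine tower_pad (R * U) (R' * U') (fromBlocks 0 0 0 1) Sum.inr Sum.inr_injective ?_ ?_ ?_ ?_
    · intro a b; rw [hRU]; rfl
    · rintro (x | x) (y | y) h
      · rw [hRU] at h; simp at h
      · rw [hRU] at h; simp at h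
      · rw [hRU] at h; simp at h
      · exact ⟨⟨x, rfl⟩, ⟨y, rfl⟩⟩
    · intro a b; rfl
    · rintro (x | x) (y | y) h
      · simp at h
      · simp at h
      · simp at h
      · exact ⟨⟨x, rfl⟩, ⟨y, rfl⟩⟩
  refine (s1.trans ?_).trans s2.symm
  have h := (exch (k := k) (fun i => if i = 0 then U' else 1) (fun i => if i = 0 then R' else 1)).sh
  have e1 : (fun i : ZMod k => (if i = 0 then U' else 1) * (if i = 0 then R' else 1)) =
      fun i : ZMod k => if i = 0 then U' * R' else 1 := by
    funext i
    split_ifs with h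
    · rfl
    · rw [Matrix.one_mul]
  rw [e1] at h
  refine h.trans ?_
  let M : ℕ → Matrix (V ⊕ W) (V ⊕ W) ℕ := fun m =>
    (if m = 0 then R' else 1) * (if m + 1 = k then U' else 1)
  have e2 : (fun i : ZMod k => (if i = 0 then R' else 1) * (if i + 1 = 0 then U' else 1)) =
      fun i : ZMod k => if i.val < k then M i.val else 1 := by
    funext i
    have hv := val_add_one i
    have hi := ZMod.val_lt i
    rw [if_pos hi]
    show _ = (if i.val = 0 then R' else 1) * (if i.val + 1 = k then U' else 1)
    have hz : i + 1 = 0 ↔ i.val + 1 = k := by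
      rw [← ZMod.val_eq_zero, hv]
      split_ifs with h
      · exact ⟨fun _ => h, fun _ => rfl⟩
      · exact ⟨fun h' => h'.elim, fun h' => absurd h' h⟩
    by_cases h0 : i = 0
    · by_cases h1 : i + 1 = 0
      · rw [if_pos h0, if_pos h1, if_pos ((ZMod.val_eq_zero i).2 h0), if_pos (hz.1 h1)]
      · rw [if_pos h0, if_neg h1, if_pos ((ZMod.val_eq_zero i).2 h0), if_neg (fun h => h1 (hz.2 h))]
    · by_cases h1 : i + 1 = 0
      · rw [if_neg h0, if_pos h1, if_neg (fun h => h0 ((ZMod.val_eq_zero i).1 h)),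
          if_pos (hz.1 h1)]
      · rw [if_neg h0, if_neg h1, if_neg (fun h => h0 ((ZMod.val_eq_zero i).1 h)),
          if_neg (fun h => h1 (hz.2 h))]
  rw [e2]
  have hcol := collapse (k := k) (fun m => if m < k then M m else 1) (fun m hm => by
    rw [if_neg (by omega)])
  have hprod : ∀ j, j < k → prodTo (fun m => if m < k then M m else 1) j =
      R' * (if j + 1 = k then U' else 1) := by
    intro j
    induction j with
    | zero =>
      intro hj
      show (if 0 < k then M 0 else 1) = _
      rw [if_pos hj]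
      rfl
    | succ j ih =>
      intro hj
      show prodTo _ j * (if j + 1 < k then M (j + 1) else 1) = _
      rw [ih (by omega), if_pos hj, if_neg (by omega), Matrix.mul_one]
      show R' * ((if j + 1 = 0 then R' else 1) * (if j + 1 + 1 = k then U' else 1)) = _
      rw [if_neg (Nat.succ_ne_zero j), Matrix.one_mul]
  rw [hprod (k - 1) (by omega), if_pos (by omega)] at hcol
  exact hcol

theorem tower_sh {A : Matrix V V ℕ} {B : Matrix W W ℕ} (h : Sh A B) : Sh (T k A) (T k B) := by
  have key : ∀ X Y : SqMat, SSE X Y → Sh (T k X.2) (T k Y.2) := by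
    intro X Y h
    unfold SSE at h
    induction h with
    | single h => exact tower_el h
    | tail _ h ih => exact ih.trans (tower_el h)
  exact ((tower_el (el_fin A)).trans (key _ _ h)).trans (tower_el (el_fin B)).symm

end Pool.Agent.Q126.SE
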