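import Pool.Agent.Q126.SE.Spb

set_option autoImplicit false

namespace Pool.Agent.Q126.SE

open Matrix Finset

/-- weighted rows -/
theorem out_wt (a : ℕ → ℕ → ℕ) (n m L s : ℕ) (x : ℕ) (f : ℕ → ℕ) :
    ∑ y : Fin (n + L), mv a n m L s x y * f y ≤
      (if (x < n ∧ s ≠ L) ∨ (n ≤ x ∧ s + 1 ≠ 2 * L) then f x else 0) +
      (if s < L ∧ act a n m s ∧ x = src n m s then f (n + s) else 0) +
      (if L ≤ s ∧ act a n m (s - L) ∧ x = n + (s - L) then f (tgt n m (s - L)) else 0) := by
  have sum1 : ∀ (z : ℕ) (P : Prop) [Decidable P], ∑ y : Fin (n + L),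
      (if P ∧ (y : ℕ) = z then f z else 0) ≤ if P then f z else 0 := by
    intro z P _
    by_cases hP : P
    · rw [if_pos hP]
      calc ∑ y : Fin (n + L), (if P ∧ (y : ℕ) = z then f z else 0)
          = ((Finset.univ : Finset (Fin (n + L))).filter
              fun y : Fin (n + L) => P ∧ (y : ℕ) = z).card * f z := by
            rw [Finset.card_filter, Finset.sum_mul]
            refine Finset.sum_congr rfl (fun y _ => ?_)
            split_ifs <;> simp
        _ ≤ 1 * f z := by
            refine Nat.mul_le_mul_right _ (Finset.card_le_one.2 (fun u hu v hv => ?_))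
            exact Fin.ext ((Finset.mem_filter.1 hu).2.2.trans (Finset.mem_filter.1 hv).2.2.symm)
        _ = f z := one_mul _
    · rw [if_neg hP]
      refine (Finset.sum_eq_zero (fun y _ => ?_)).le
      rw [if_neg (fun h => hP h.1)]
  have e : ∀ y : Fin (n + L), mv a n m L s x y * f y =
      (if ((x < n ∧ s ≠ L) ∨ (n ≤ x ∧ s + 1 ≠ 2 * L)) ∧ (y : ℕ) = x then f x else 0) +
      (if (s < L ∧ act a n m s ∧ x = src n m s) ∧ (y : ℕ) = n + s then f (n + s) else 0) +
      (if (L ≤ s ∧ act a n m (s - L) ∧ x = n + (s - L)) ∧ (y : ℕ) = tgt n m (s - L)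
        then f (tgt n m (s - L)) else 0) := by
    intro y
    unfold mv
    rw [add_mul, add_mul]
    congr 1
    · congr 1
      · by_cases h : (y : ℕ) = x
        · by_cases h' : (x < n ∧ s ≠ L) ∨ (n ≤ x ∧ s + 1 ≠ 2 * L)
          · rw [if_pos ⟨h, h'⟩, if_pos ⟨h', h⟩, one_mul, h]
          · rw [if_neg (fun g => h' g.2), if_neg (fun g => h' g.1), zero_mul]
        · rw [if_neg (fun g => h g.1), if_neg (fun g => h g.2), zero_mul]
      · by_cases h : (y : ℕ) = n + s
        · by_cases h' : s < L ∧ act a n m s ∧ x = src n m s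
          · rw [if_pos ⟨h'.1, h'.2.1, h'.2.2, h⟩, if_pos ⟨h', h⟩, one_mul, h]
          · rw [if_neg (fun g => h' ⟨g.1, g.2.1, g.2.2.1⟩), if_neg (fun g => h' g.1), zero_mul]
        · rw [if_neg (fun g => h g.2.2.2), if_neg (fun g => h g.2), zero_mul]
    · by_cases h : (y : ℕ) = tgt n m (s - L)
      · by_cases h' : L ≤ s ∧ act a n m (s - L) ∧ x = n + (s - L)
        · rw [if_pos ⟨h'.1, h'.2.1, h'.2.2, h⟩, if_pos ⟨h', h⟩, one_mul, h]
        · rw [if_neg (fun g => h' ⟨g.1, g.2.1, g.2.2.1⟩), if_neg (fun g => h' g.1), zero_mul]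
      · rw [if_neg (fun g => h g.2.2.2), if_neg (fun g => h g.2), zero_mul]
  rw [Finset.sum_congr rfl (fun y _ => e y), Finset.sum_add_distrib, Finset.sum_add_distrib]
  exact Nat.add_le_add (Nat.add_le_add (sum1 _ _) (sum1 _ _)) (sum1 _ _)

/-- number of the active slots from level `s` on with source `x` -/
def rest (a : ℕ → ℕ → ℕ) (n m L s x : ℕ) : ℕ :=
  ((Finset.Ico s L).filter fun e => act a n m e ∧ src n m e = x).card

theorem rest_step (a : ℕ → ℕ → ℕ) (n m L s x : ℕ) (h : s < L) :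
    rest a n m L s x = rest a n m L (s + 1) x + if act a n m s ∧ src n m s = x then 1 else 0 := by
  unfold rest
  rw [← Finset.insert_Ico_add_one_left_eq_Ico h, Finset.filter_insert]
  split_ifs with h'
  · rw [Finset.card_insert_of_notMem (by simp)]
  · rfl

theorem rest_le (a : ℕ → ℕ → ℕ) (n m L s x : ℕ) (ha : ∀ i j, a i j ≤ m) :
    rest a n m L s x ≤ n * n * m := by
  unfold rest
  calc _ ≤ (Finset.range (n * n * m)).card := by
        refine Finset.card_le_card (fun e he => ?_)
        rw [Finset.mem_range]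
        by_contra h
        exact act_last ha (by omega) (Finset.mem_filter.1 he).2.1
    _ = n * n * m := Finset.card_range _

/-- the weight -/
def wt (a : ℕ → ℕ → ℕ) (n m L s x : ℕ) : ℕ :=
  if x < n then 1 + 2 * rest a n m L s x else if s ≤ L + (x - n) then 2 else 1

theorem wt_pos (a : ℕ → ℕ → ℕ) (n m L s x : ℕ) : 1 ≤ wt a n m L s x := by
  unfold wt
  split_ifs <;> omega

theorem rest_zero (a : ℕ → ℕ → ℕ) (n m L s x : ℕ) (h : L ≤ s) : rest a n m L s x = 0 := by
  unfold rest
  rw [Finset.Ico_eq_empty (by omega)]; rfl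

/-- inner levels -/
theorem wt_step (a : ℕ → ℕ → ℕ) (n m L s x : ℕ) :
    ∑ y : Fin (n + L), mv a n m L s x y * wt a n m L (s + 1) y ≤ wt a n m L s x := by
  refine (out_wt a n m L s x _).trans ?_
  rcases Nat.lt_or_ge x n with hx | hx
  · have c3 : ¬ (L ≤ s ∧ act a n m (s - L) ∧ x = n + (s - L)) := fun h => by omega
    rw [if_neg c3, add_zero]
    rcases Nat.lt_or_ge s L with hs | hs
    · have c1 : (x < n ∧ s ≠ L) ∨ (n ≤ x ∧ s + 1 ≠ 2 * L) := Or.inl ⟨hx, hs.ne⟩
      rw [if_pos c1]
      unfold wt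
      rw [if_pos hx, if_pos hx, rest_step a n m L s x hs]
      by_cases h : act a n m s ∧ src n m s = x
      · rw [if_pos h]
        split_ifs <;> omega
      · rw [if_neg h, if_neg (fun g : s < L ∧ act a n m s ∧ x = src n m s =>
          h ⟨g.2.1, g.2.2.symm⟩)]
        omega
    · rw [if_neg (fun h : s < L ∧ act a n m s ∧ x = src n m s => by omega), add_zero]
      unfold wt
      rw [if_pos hx, if_pos hx, rest_zero _ _ _ _ _ _ hs, rest_zero _ _ _ _ _ _ (by omega)]
      split_ifs <;> omega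
  · have c2 : ¬ (s < L ∧ act a n m s ∧ x = src n m s) := fun h => by
      have := h.2.1.1
      omega
    rw [if_neg c2, add_zero]
    by_cases c3 : L ≤ s ∧ act a n m (s - L) ∧ x = n + (s - L)
    · have ht := tgt_lt c3.2.1
      rw [if_pos c3]
      unfold wt
      rw [if_pos ht, if_neg (by omega : ¬ x < n), if_neg (by omega : ¬ x < n),
        rest_zero _ _ _ _ _ _ (by omega), if_neg (by omega : ¬ s + 1 ≤ L + (x - n)),
        if_pos (by omega : s ≤ L + (x - n))]
      split_ifs <;> omega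
    · rw [if_neg c3, add_zero]
      unfold wt
      rw [if_neg (by omega : ¬ x < n), if_neg (by omega : ¬ x < n)]
      split_ifs <;> omega

/-- from the last level to level zero -/
theorem wt_wrap (a : ℕ → ℕ → ℕ) (n m L x : ℕ) (ha : ∀ i j, a i j ≤ m) (hL : 1 ≤ L)
    (hL' : n * n * m + 1 ≤ L) :
    ∑ y : Fin (n + L), mv a n m L (2 * L - 1) x y * wt a n m L 0 y ≤
      (1 + 2 * (n * n * m)) * wt a n m L (2 * L - 1) x := by
  refine (out_wt a n m L (2 * L - 1) x _).trans ?_
  have c2 : ¬ (2 * L - 1 < L ∧ act a n m (2 * L - 1) ∧ x = src n m (2 * L - 1)) :=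
    fun h => by omega
  have c3 : ¬ (L ≤ 2 * L - 1 ∧ act a n m (2 * L - 1 - L) ∧ x = n + (2 * L - 1 - L)) :=
    fun h => by
      have := h.2.1
      rw [show 2 * L - 1 - L = L - 1 by omega] at this
      exact act_last ha (by omega) this
  rw [if_neg c2, if_neg c3, add_zero, add_zero]
  have hw := wt_pos a n m L (2 * L - 1) x
  split_ifs with c1
  · have hx : x < n := by omega
    have h1 : wt a n m L 0 x ≤ 1 + 2 * (n * n * m) := by
      unfold wt
      rw [if_pos hx]
      have := rest_le a n m L 0 x ha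
      omega
    calc wt a n m L 0 x ≤ (1 + 2 * (n * n * m)) * 1 := by rw [mul_one]; exact h1
      _ ≤ _ := Nat.mul_le_mul_left _ hw
  · exact Nat.zero_le _

/-- Bernoulli -/
theorem bern (g k : ℕ) : (g + 1) ^ k + k * (g + 1) ^ (k - 1) ≤ (g + 2) ^ k := by
  induction k with
  | zero => simp
  | succ k ih =>
    rcases Nat.eq_zero_or_pos k with hk | hk
    · subst hk; simp
    · obtain ⟨r, rfl⟩ : ∃ r, k = r + 1 := ⟨k - 1, by omega⟩
      simp only [Nat.add_sub_cancel] at ih ⊢
      calc (g + 1) ^ (r + 1 + 1) + (r + 1 + 1) * (g + 1) ^ (r + 1)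
          ≤ ((g + 1) ^ (r + 1) + (r + 1) * (g + 1) ^ r) * (g + 2) := by
            have h1 : (g + 1) ^ (r + 1) = (g + 1) ^ r * (g + 1) := pow_succ _ _
            have h2 : (g + 1) ^ (r + 1 + 1) = (g + 1) ^ r * (g + 1) * (g + 1) := by
              rw [pow_succ, pow_succ]
            rw [h2, h1]
            nlinarith [Nat.zero_le ((g + 1) ^ r), Nat.zero_le ((r + 1) * (g + 1) ^ r)]
        _ ≤ (g + 2) ^ (r + 1) * (g + 2) := Nat.mul_le_mul_right _ ih
        _ = _ := (pow_succ _ _).symm

theorem pow_ge (g c L : ℕ) (hL : 1 ≤ L) (h : (g + 1) * c ≤ L) :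
    (g + 1) ^ (2 * L) * (1 + 2 * c) ≤ (g + 2) ^ (2 * L) := by
  refine le_trans ?_ (bern g (2 * L))
  obtain ⟨r, hr⟩ : ∃ r, 2 * L = r + 1 := ⟨2 * L - 1, by omega⟩
  rw [mul_add, mul_one]
  refine Nat.add_le_add_left ?_ _
  calc (g + 1) ^ (2 * L) * (2 * c) = (g + 1) ^ (2 * L - 1) * (2 * ((g + 1) * c)) := by
        rw [hr, Nat.add_sub_cancel, pow_succ]; ring
    _ ≤ (g + 1) ^ (2 * L - 1) * (2 * L) := Nat.mul_le_mul_left _ (by omega)
    _ = _ := mul_comm _ _

/-- the potential -/
def pot (a : ℕ → ℕ → ℕ) (n m L g : ℕ) (p : ZMod (2 * L) × Fin (n + L)) : ℕ :=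
  (g + 2) ^ p.1.val * (g + 1) ^ (2 * L - p.1.val) * wt a n m L p.1.val p.2

theorem pot_pos (a : ℕ → ℕ → ℕ) (n m L g : ℕ) (p : ZMod (2 * L) × Fin (n + L)) :
    1 ≤ pot a n m L g p := by
  unfold pot
  exact Nat.mul_pos (Nat.mul_pos (by positivity) (by positivity)) (wt_pos _ _ _ _ _ _)

theorem pot_step (a : ℕ → ℕ → ℕ) (n m L g : ℕ) [NeZero (2 * L)] (ha : ∀ i j, a i j ≤ m)
    (hL : (g + 2) * (n * n * m + 1) ≤ L) (p : ZMod (2 * L) × Fin (n + L)) :
    (g + 1) * ∑ q, big a n m L p q * pot a n m L g q ≤ (g + 2) * pot a n m L g p := by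
  obtain ⟨i, x⟩ := p
  have hL1 : n * n * m + 1 ≤ L := le_trans (Nat.le_mul_of_pos_left _ (by omega)) hL
  have hL2 : (g + 1) * (n * n * m) ≤ L := by nlinarith
  have hs := ZMod.val_lt i
  have e : ∑ q, big a n m L (i, x) q * pot a n m L g q =
      (g + 2) ^ (i + 1).val * (g + 1) ^ (2 * L - (i + 1).val) *
        ∑ y : Fin (n + L), mv a n m L i.val x y * wt a n m L (i + 1).val y := by
    rw [Fintype.sum_prod_type, Finset.sum_eq_single (i + 1), Finset.mul_sum]
    · refine Finset.sum_congr rfl (fun y _ => ?_)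
      show (if i + 1 = i + 1 then blk a n m L i.val x y else 0) *
        ((g + 2) ^ (i + 1).val * (g + 1) ^ (2 * L - (i + 1).val) * wt a n m L (i + 1).val y) = _
      rw [if_pos rfl, blk_of hs]
      ring
    · intro b _ hb
      refine Finset.sum_eq_zero (fun y _ => ?_)
      show (if b = i + 1 then blk a n m L i.val x y else 0) * _ = 0
      rw [if_neg hb, zero_mul]
    · simp
  rw [e]
  show _ ≤ (g + 2) * ((g + 2) ^ i.val * (g + 1) ^ (2 * L - i.val) * wt a n m L i.val x)
  rw [val_add_one]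
  generalize i.val = s at *
  by_cases h : s + 1 = 2 * L
  · rw [if_pos h]
    have hs' : s = 2 * L - 1 := by omega
    subst hs'
    have h1 := wt_wrap a n m L x ha (by omega) hL1
    have h2 := pow_ge g (n * n * m) L (by omega) hL2
    have h3 : (g + 2) * (g + 2) ^ (2 * L - 1) = (g + 2) ^ (2 * L) := by
      rw [← pow_succ', h]
    rw [pow_zero, one_mul, Nat.sub_zero, show 2 * L - (2 * L - 1) = 1 by omega, pow_one]
    calc (g + 1) * ((g + 1) ^ (2 * L) * ∑ y : Fin (n + L),
          mv a n m L (2 * L - 1) x y * wt a n m L 0 y)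
        ≤ (g + 1) * ((g + 1) ^ (2 * L) * ((1 + 2 * (n * n * m)) * wt a n m L (2 * L - 1) x)) :=
          Nat.mul_le_mul_left _ (Nat.mul_le_mul_left _ h1)
      _ = (g + 1) * (((g + 1) ^ (2 * L) * (1 + 2 * (n * n * m))) * wt a n m L (2 * L - 1) x) := by
          ring
      _ ≤ (g + 1) * ((g + 2) ^ (2 * L) * wt a n m L (2 * L - 1) x) :=
          Nat.mul_le_mul_left _ (Nat.mul_le_mul_right _ h2)
      _ = (g + 2) * ((g + 2) ^ (2 * L - 1) * (g + 1) * wt a n m L (2 * L - 1) x) := by
          rw [← h3]; ring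
  · rw [if_neg h]
    have h1 := wt_step a n m L s x
    obtain ⟨r, hr⟩ : ∃ r, 2 * L - s = r + 1 := ⟨2 * L - s - 1, by omega⟩
    rw [show 2 * L - (s + 1) = r by omega, hr]
    calc (g + 1) * ((g + 2) ^ (s + 1) * (g + 1) ^ r * ∑ y : Fin (n + L),
          mv a n m L s x y * wt a n m L (s + 1) y)
        ≤ (g + 1) * ((g + 2) ^ (s + 1) * (g + 1) ^ r * wt a n m L s x) :=
          Nat.mul_le_mul_left _ (Nat.mul_le_mul_left _ h1)
      _ = _ := by rw [pow_succ, pow_succ]; ring

/-- growth of the powers -/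
theorem big_growth (a : ℕ → ℕ → ℕ) (n m L g : ℕ) [NeZero (2 * L)] (ha : ∀ i j, a i j ≤ m)
    (hL : (g + 2) * (n * n * m + 1) ≤ L) : ∃ C : ℕ, ∀ (j : ℕ) (p q : ZMod (2 * L) × Fin (n + L)),
    (big a n m L ^ j) p q * (g + 1) ^ j ≤ C * (g + 2) ^ j := by
  have key : ∀ (j : ℕ) (p : ZMod (2 * L) × Fin (n + L)),
      (g + 1) ^ j * ∑ q, (big a n m L ^ j) p q * pot a n m L g q ≤
        (g + 2) ^ j * pot a n m L g p := by
    intro j
    induction j with
    | zero =>
      intro p
      rw [pow_zero, pow_zero, pow_zero, one_mul, one_mul, Finset.sum_eq_single p]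
      · rw [Matrix.one_apply_eq, one_mul]
      · intro b _ hb
        rw [Matrix.one_apply_ne (Ne.symm hb), zero_mul]
      · simp
    | succ j ih =>
      intro p
      have e : ∑ q, (big a n m L ^ (j + 1)) p q * pot a n m L g q =
          ∑ r, big a n m L p r * ∑ q, (big a n m L ^ j) r q * pot a n m L g q := by
        rw [pow_succ']
        calc ∑ q, (big a n m L * big a n m L ^ j) p q * pot a n m L g q
            = ∑ q, ∑ r, big a n m L p r * ((big a n m L ^ j) r q * pot a n m L g q) := by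
              refine Finset.sum_congr rfl (fun q _ => ?_)
              rw [Matrix.mul_apply, Finset.sum_mul]
              exact Finset.sum_congr rfl (fun r _ => mul_assoc _ _ _)
          _ = _ := by
              rw [Finset.sum_comm]
              exact Finset.sum_congr rfl (fun r _ => (Finset.mul_sum _ _ _).symm)
      rw [e]
      calc (g + 1) ^ (j + 1) * ∑ r, big a n m L p r *
            ∑ q, (big a n m L ^ j) r q * pot a n m L g q
          = (g + 1) * ∑ r, big a n m L p r * ((g + 1) ^ j *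
            ∑ q, (big a n m L ^ j) r q * pot a n m L g q) := by
            rw [pow_succ, mul_comm ((g + 1) ^ j), mul_assoc, Finset.mul_sum]
            congr 1
            exact Finset.sum_congr rfl (fun r _ => by ring)
        _ ≤ (g + 1) * ∑ r, big a n m L p r * ((g + 2) ^ j * pot a n m L g r) :=
            Nat.mul_le_mul_left _ (Finset.sum_le_sum fun r _ => Nat.mul_le_mul_left _ (ih r))
        _ = (g + 2) ^ j * ((g + 1) * ∑ r, big a n m L p r * pot a n m L g r) := by
            rw [Finset.mul_sum, Finset.mul_sum, Finset.mul_sum]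
            exact Finset.sum_congr rfl (fun r _ => by ring)
        _ ≤ (g + 2) ^ j * ((g + 2) * pot a n m L g p) :=
            Nat.mul_le_mul_left _ (pot_step a n m L g ha hL p)
        _ = _ := by rw [pow_succ]; ring
  refine ⟨∑ p, pot a n m L g p, fun j p q => ?_⟩
  calc (big a n m L ^ j) p q * (g + 1) ^ j
      ≤ (g + 1) ^ j * ((big a n m L ^ j) p q * pot a n m L g q) := by
        rw [mul_comm]
        exact Nat.mul_le_mul_left _ (Nat.le_mul_of_pos_right _ (pot_pos _ _ _ _ _ _))
    _ ≤ (g + 1) ^ j * ∑ q, (big a n m L ^ j) p q * pot a n m L g q :=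
        Nat.mul_le_mul_left _ (Finset.single_le_sum
          (f := fun q => (big a n m L ^ j) p q * pot a n m L g q)
          (fun _ _ => Nat.zero_le _) (Finset.mem_univ q))
    _ ≤ (g + 2) ^ j * pot a n m L g p := key j p
    _ ≤ (g + 2) ^ j * ∑ p, pot a n m L g p :=
        Nat.mul_le_mul_left _ (Finset.single_le_sum (f := fun p => pot a n m L g p)
          (fun _ _ => Nat.zero_le _) (Finset.mem_univ p))
    _ = _ := mul_comm _ _

end Pool.Agent.Q126.SE
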