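import Pool.Agent.Q126.SE.Bas

set_option autoImplicit false

namespace Pool.Agent.Q126.SE

open Matrix Finset

/-- the elements with the property `P` -/
structure Sb {V : Type} (P : V → Prop) : Type where
  /-- the element -/
  val : V
  property : P val

theorem Sb.inj {V : Type} (P : V → Prop) : Function.Injective (Sb.val (P := P)) := by
  rintro ⟨a, ha⟩ ⟨b, hb⟩ h
  cases h
  rfl

instance {V : Type} [Finite V] (P : V → Prop) : Finite (Sb P) :=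
  Finite.of_injective _ (Sb.inj P)

noncomputable instance {V : Type} [Fintype V] (P : V → Prop) : Fintype (Sb P) :=
  Fintype.ofFinite _

/-- the principal submatrix -/
def sub {V : Type} (A : Matrix V V ℕ) (P : V → Prop) : Matrix (Sb P) (Sb P) ℕ :=
  A.submatrix Sb.val Sb.val

theorem sum_sb {V : Type} [Fintype V] (P : V → Prop) (f : V → ℕ) (h : ∀ v, f v ≠ 0 → P v) :
    ∑ x : Sb P, f x.1 = ∑ x, f x := by
  classical
  have h1 : ∑ x : Sb P, f x.1 = ∑ x ∈ (univ : Finset (Sb P)).map ⟨Sb.val, Sb.inj P⟩, f x := by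
    rw [Finset.sum_map]; rfl
  rw [h1]
  refine Finset.sum_subset (Finset.subset_univ _) (fun x _ hx => ?_)
  by_contra hne
  exact hx (Finset.mem_map.2 ⟨⟨x, h x hne⟩, Finset.mem_univ _, rfl⟩)

theorem mul_ne {V W J : Type} [Fintype J] {A : Matrix V J ℕ} {B : Matrix J W ℕ} {v : V} {w : W} :
    (A * B) v w ≠ 0 ↔ ∃ j, A v j ≠ 0 ∧ B j w ≠ 0 := by
  rw [Matrix.mul_apply, Ne, Finset.sum_eq_zero_iff]
  push Not
  simp only [Finset.mem_univ, true_and, mul_ne_zero_iff]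

variable {V J : Type} [Fintype V] [Fintype J] [DecidableEq V] [DecidableEq J]

omit [DecidableEq V] [DecidableEq J] in
theorem el_sub {R : Matrix V J ℕ} {S : Matrix J V ℕ} {P : V → Prop} {Q : J → Prop}
    (h1 : ∀ v j v', P v → P v' → R v j ≠ 0 → S j v' ≠ 0 → Q j)
    (h2 : ∀ j v j', Q j → Q j' → S j v ≠ 0 → R v j' ≠ 0 → P v) :
    El (sub (R * S) P) (sub (S * R) Q) := by
  refine ⟨R.submatrix Sb.val Sb.val, S.submatrix Sb.val Sb.val, ?_, ?_⟩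
  · ext a b
    show (R * S) a.1 b.1 = ∑ j : Sb Q, R a.1 j.1 * S j.1 b.1
    rw [Matrix.mul_apply, sum_sb Q (fun j => R a.1 j * S j b.1)]
    intro j hj
    exact h1 a.1 j b.1 a.2 b.2 (left_ne_zero_of_mul hj) (right_ne_zero_of_mul hj)
  · ext a b
    show (S * R) a.1 b.1 = ∑ j : Sb P, S a.1 j.1 * R j.1 b.1
    rw [Matrix.mul_apply, sum_sb P (fun j => S a.1 j * R j b.1)]
    intro j hj
    exact h2 a.1 j b.1 a.2 b.2 (left_ne_zero_of_mul hj) (right_ne_zero_of_mul hj)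

/-- there are arbitrarily long walks starting at `v` -/
def Fwd (A : Matrix V V ℕ) (v : V) : Prop := ∀ N : ℕ, ∃ w, (A ^ N) v w ≠ 0

/-- there are arbitrarily long walks ending at `v` -/
def Bwd (A : Matrix V V ℕ) (v : V) : Prop := ∀ N : ℕ, ∃ w, (A ^ N) w v ≠ 0

/-- the essential vertices -/
def Ess (A : Matrix V V ℕ) (v : V) : Prop := Fwd A v ∧ Bwd A v

theorem pow_ne_iff {A : Matrix V V ℕ} {M N : ℕ} {v w : V} :
    (A ^ (M + N)) v w ≠ 0 ↔ ∃ x, (A ^ M) v x ≠ 0 ∧ (A ^ N) x w ≠ 0 := by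
  rw [pow_add]; exact mul_ne

theorem fwd_of {A : Matrix V V ℕ} {N : ℕ} {v w : V} (h : (A ^ N) v w ≠ 0) (hw : Fwd A w) :
    Fwd A v := by
  intro M
  obtain ⟨x, hx⟩ := hw M
  have h1 : (A ^ (N + M)) v x ≠ 0 := pow_ne_iff.2 ⟨w, h, hx⟩
  rw [add_comm] at h1
  obtain ⟨y, hy, _⟩ := pow_ne_iff.1 h1
  exact ⟨y, hy⟩

theorem bwd_of {A : Matrix V V ℕ} {N : ℕ} {v w : V} (h : (A ^ N) v w ≠ 0) (hv : Bwd A v) :
    Bwd A w := by
  intro M
  obtain ⟨x, hx⟩ := hv M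
  have h1 : (A ^ (M + N)) x w ≠ 0 := pow_ne_iff.2 ⟨v, hx, h⟩
  rw [add_comm] at h1
  obtain ⟨y, _, hy⟩ := pow_ne_iff.1 h1
  exact ⟨y, hy⟩

theorem fwd_iff_transpose (A : Matrix V V ℕ) (v : V) : Fwd A v ↔ Bwd Aᵀ v := by
  unfold Fwd Bwd
  simp only [← Matrix.transpose_pow, Matrix.transpose_apply]

section transfer

variable {U : Matrix V J ℕ} {W : Matrix J V ℕ}

theorem int1 (U : Matrix V J ℕ) (W : Matrix J V ℕ) (N : ℕ) :
    (U * W) ^ N * U = U * (W * U) ^ N := by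
  induction N with
  | zero => simp
  | succ N ih =>
    rw [pow_succ, Matrix.mul_assoc, Matrix.mul_assoc, ← Matrix.mul_assoc _ U, ih, pow_succ,
      Matrix.mul_assoc]

theorem int2 (U : Matrix V J ℕ) (W : Matrix J V ℕ) (N : ℕ) :
    W * (U * W) ^ N = (W * U) ^ N * W := (int1 W U N).symm

theorem t1 {v : V} {j : J} (h : U v j ≠ 0) (hv : Bwd (U * W) v) : Bwd (W * U) j := by
  intro N
  obtain ⟨w, hw⟩ := hv N
  have h1 : ((U * W) ^ N * U) w j ≠ 0 := mul_ne.2 ⟨v, hw, h⟩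
  rw [int1] at h1
  obtain ⟨x, _, hx⟩ := mul_ne.1 h1
  exact ⟨x, hx⟩

theorem t2 {v : V} {j : J} (h : W j v ≠ 0) (hv : Fwd (U * W) v) : Fwd (W * U) j := by
  intro N
  obtain ⟨w, hw⟩ := hv N
  have h1 : (W * (U * W) ^ N) j w ≠ 0 := mul_ne.2 ⟨v, h, hw⟩
  rw [int2] at h1
  obtain ⟨x, hx, _⟩ := mul_ne.1 h1
  exact ⟨x, hx⟩

theorem t5 {j : J} (hj : Bwd (W * U) j) : ∃ v, U v j ≠ 0 ∧ Bwd (U * W) v := by
  by_contra hc
  push Not at hc
  have h1 : ∀ v, ∃ N : ℕ, U v j ≠ 0 → ∀ w, ((U * W) ^ N) w v = 0 := by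
    intro v
    by_cases hv : U v j ≠ 0
    · have := hc v hv
      unfold Bwd at this
      push Not at this
      obtain ⟨N, hN⟩ := this
      exact ⟨N, fun _ => hN⟩
    · exact ⟨0, fun h => absurd h hv⟩
  choose N hN using h1
  obtain ⟨y, hy⟩ := hj ((univ.sup N) + 1)
  rw [pow_succ, ← Matrix.mul_assoc, ← int2] at hy
  obtain ⟨v, hv1, hv2⟩ := mul_ne.1 hy
  obtain ⟨x, _, hx⟩ := mul_ne.1 hv1
  have hle : N v ≤ univ.sup N := Finset.le_sup (Finset.mem_univ v)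
  obtain ⟨d, hd⟩ := Nat.exists_eq_add_of_le hle
  rw [hd, add_comm] at hx
  obtain ⟨z, _, hz⟩ := pow_ne_iff.1 hx
  exact hz (hN v hv2 z)

theorem t6 {j : J} (hj : Fwd (W * U) j) : ∃ v, W j v ≠ 0 ∧ Fwd (U * W) v := by
  rw [fwd_iff_transpose, Matrix.transpose_mul] at hj
  obtain ⟨v, h1, h2⟩ := t5 (U := Wᵀ) (W := Uᵀ) hj
  refine ⟨v, h1, ?_⟩
  rw [fwd_iff_transpose, Matrix.transpose_mul]
  exact h2

end transfer

/-- a grading of the essential vertices: the edges raise the degree by one -/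
def Graded (A : Matrix V V ℕ) (k : ℕ) (c : V → ZMod k) : Prop :=
  ∀ v w, Ess A v → Ess A w → A v w ≠ 0 → c w = c v + 1

/-- the return matrix to degree zero -/
def ret (A : Matrix V V ℕ) (k : ℕ) (c : V → ZMod k) :
    Matrix (Sb fun v => Ess A v ∧ c v = 0) (Sb fun v => Ess A v ∧ c v = 0) ℕ :=
  sub (A ^ k) fun v => Ess A v ∧ c v = 0

theorem Graded.walk {A : Matrix V V ℕ} {k : ℕ} {c : V → ZMod k} (hc : Graded A k c) (N : ℕ) :
    ∀ v w, Ess A v → Ess A w → (A ^ N) v w ≠ 0 → c w = c v + N := by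
  induction N with
  | zero =>
    intro v w _ _ h
    rw [pow_zero, Matrix.one_apply] at h
    have : v = w := by by_contra hne; simp [hne] at h
    simp [this]
  | succ N ih =>
    intro v w hv hw h
    obtain ⟨x, hx1, hx2⟩ := pow_ne_iff.1 h
    rw [pow_one] at hx2
    have hx : Ess A x := ⟨fwd_of (N := 1) (by rwa [pow_one]) hw.1, bwd_of hx1 hv.2⟩
    rw [hc x w hx hw hx2, ih v x hv hx hx1]
    push_cast; ring

theorem step {k : ℕ} (hk : k ≠ 0) (U : Matrix V J ℕ) (W : Matrix J V ℕ) (c : V → ZMod k)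
    (hc : Graded (U * W) k c) :
    ∃ c' : J → ZMod k, Graded (W * U) k c' ∧ El (ret (U * W) k c) (ret (W * U) k c') := by
  classical
  obtain ⟨m, rfl⟩ : ∃ m, k = m + 1 := ⟨k - 1, by omega⟩
  let c' : J → ZMod (m + 1) := fun j =>
    if h : ∃ v, Ess (U * W) v ∧ U v j ≠ 0 then c h.choose else 0
  have hl : ∀ j, Ess (W * U) j → ∃ l, Ess (U * W) l ∧ W j l ≠ 0 := by
    intro j hj
    obtain ⟨l, h1, h2⟩ := t6 (U := U) (W := W) hj.1
    exact ⟨l, ⟨h2, t1 (U := W) (W := U) h1 hj.2⟩, h1⟩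
  have hcc : ∀ j, Ess (W * U) j → ∀ v, Ess (U * W) v → U v j ≠ 0 → c' j = c v := by
    intro j hj v hv hvj
    have hex : ∃ v, Ess (U * W) v ∧ U v j ≠ 0 := ⟨v, hv, hvj⟩
    have e : c' j = c hex.choose := dif_pos hex
    obtain ⟨l, hl1, hl2⟩ := hl j hj
    have h1 := hc hex.choose l hex.choose_spec.1 hl1 (mul_ne.2 ⟨j, hex.choose_spec.2, hl2⟩)
    have h2 := hc v l hv hl1 (mul_ne.2 ⟨j, hvj, hl2⟩)
    rw [h1] at h2
    rw [e]
    exact add_right_cancel h2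
  have hcv : ∀ j, Ess (W * U) j → ∀ l, Ess (U * W) l → W j l ≠ 0 → c l = c' j + 1 := by
    intro j hj l hl' hjl
    obtain ⟨v, h1, h2⟩ := t5 (U := U) (W := W) hj.2
    have hv : Ess (U * W) v := ⟨t2 (U := W) (W := U) h1 hj.1, h2⟩
    rw [hcc j hj v hv h1]
    exact hc v l hv hl' (mul_ne.2 ⟨j, h1, hjl⟩)
  refine ⟨c', ?_, ?_⟩
  · intro j j' hj hj' h
    obtain ⟨l, h1, h2⟩ := mul_ne.1 h
    have hl' : Ess (U * W) l := ⟨t2 (U := W) (W := U) h2 hj'.1, t1 (U := W) (W := U) h1 hj.2⟩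
    rw [hcc j' hj' l hl' h2, hcv j hj l hl' h1]
  · have e1 : (U * W) ^ (m + 1) = U * ((W * U) ^ m * W) := by
      rw [← int2, ← Matrix.mul_assoc, ← pow_succ']
    have e2 : (W * U) ^ (m + 1) = ((W * U) ^ m * W) * U := by
      rw [Matrix.mul_assoc, ← pow_succ]
    unfold ret
    rw [e1, e2]
    refine el_sub ?_ ?_
    · rintro v j v' ⟨hv, hv0⟩ ⟨hv', hv0'⟩ h1 h2
      obtain ⟨x, hx1, hx2⟩ := mul_ne.1 h2
      have hj : Ess (W * U) j :=
        ⟨fwd_of hx1 (t2 hx2 hv'.1), t1 h1 hv.2⟩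
      exact ⟨hj, by rw [hcc j hj v hv h1, hv0]⟩
    · rintro j v j' ⟨hj, hj0⟩ ⟨hj', hj0'⟩ h1 h2
      obtain ⟨x, hx1, hx2⟩ := mul_ne.1 h1
      have hv : Ess (U * W) v :=
        ⟨t2 (U := W) (W := U) h2 hj'.1, t1 (U := W) (W := U) hx2 (bwd_of hx1 hj.2)⟩
      exact ⟨hv, by rw [← hcc j' hj' v hv h2, hj0']⟩

end Pool.Agent.Q126.SE
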