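import Pool.Agent.Q126.SE.Cyc

set_option autoImplicit false

namespace Pool.Agent.Q126.SE

open Matrix Finset

variable {V W J : Type} [Fintype V] [Fintype W] [Fintype J] [DecidableEq V] [DecidableEq W]
  [DecidableEq J]

variable {k : ℕ} [NeZero k]

/-- product of `m` blocks, from level `i` on -/
def pr (M : ZMod k → Matrix V V ℕ) : ZMod k → ℕ → Matrix V V ℕ
  | _, 0 => 1
  | i, m + 1 => M i * pr M (i + 1) m

theorem cyc_pow (M : ZMod k → Matrix V V ℕ) (m : ℕ) : ∀ p q : ZMod k × V,
    (cyc M ^ m) p q = if q.1 = p.1 + m then pr M p.1 m p.2 q.2 else 0 := by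
  induction m with
  | zero =>
    rintro ⟨i, v⟩ ⟨j, w⟩
    rw [pow_zero, Matrix.one_apply]
    show _ = if j = i + ((0 : ℕ) : ZMod k) then (1 : Matrix V V ℕ) v w else 0
    rw [Matrix.one_apply, Nat.cast_zero, add_zero]
    by_cases h1 : j = i
    · by_cases h2 : v = w
      · simp [h1, h2]
      · simp [h1, h2]
    · rw [if_neg h1, if_neg]
      intro h
      exact h1 (congrArg Prod.fst h).symm
  | succ m ih =>
    rintro ⟨i, v⟩ ⟨j, w⟩
    rw [pow_succ', Matrix.mul_apply, Fintype.sum_prod_type, Finset.sum_eq_single (i + 1)]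
    · have e : ∀ x : V, cyc M (i, v) (i + 1, x) * (cyc M ^ m) (i + 1, x) (j, w) =
          if j = i + 1 + m then M i v x * pr M (i + 1) m x w else 0 := by
        intro x
        rw [ih]
        show (if i + 1 = i + 1 then M i v x else 0) * (if j = i + 1 + m then
          pr M (i + 1) m x w else 0) = _
        rw [if_pos rfl]
        split_ifs
        · rfl
        · rw [mul_zero]
      rw [Finset.sum_congr rfl (fun x _ => e x)]
      show _ = if j = i + ((m + 1 : ℕ) : ZMod k) then (M i * pr M (i + 1) m) v w else 0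
      have e2 : i + ((m + 1 : ℕ) : ZMod k) = i + 1 + m := by push_cast; ring
      rw [e2, Matrix.mul_apply]
      split_ifs
      · rfl
      · exact Finset.sum_const_zero
    · intro b _ hb
      refine Finset.sum_eq_zero (fun x _ => ?_)
      have : cyc M (i, v) (b, x) = 0 := by
        show (if b = i + 1 then M i v x else 0) = 0
        rw [if_neg hb]
      rw [this, zero_mul]
    · intro h
      exact absurd (Finset.mem_univ _) h

omit [NeZero k] in
theorem pr_one (A : Matrix V V ℕ) (m : ℕ) : ∀ j : ℕ, 1 ≤ j → j + m ≤ k →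
    pr (fun i : ZMod k => if i = 0 then A else 1) (j : ZMod k) m = 1 := by
  induction m with
  | zero => intro j _ _; rfl
  | succ m ih =>
    intro j h1 h2
    show (if (j : ZMod k) = 0 then A else 1) * pr _ ((j : ZMod k) + 1) m = 1
    have hj : (j : ZMod k) ≠ 0 := by
      intro h
      have := (ZMod.val_eq_zero (j : ZMod k)).2 h
      rw [ZMod.val_natCast, Nat.mod_eq_of_lt (by omega)] at this
      omega
    rw [if_neg hj, Matrix.one_mul]
    have := ih (j + 1) (by omega) (by omega)
    push_cast at this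
    exact this

theorem T_pow (A : Matrix V V ℕ) (v : V) (q : ZMod k × V) :
    (T k A ^ k) (0, v) q = if q.1 = 0 then A v q.2 else 0 := by
  unfold T
  rw [cyc_pow]
  have hk0 : k ≠ 0 := NeZero.ne k
  obtain ⟨m, hm⟩ : ∃ m, k = m + 1 := ⟨k - 1, by omega⟩
  have h1 : pr (fun i : ZMod k => if i = 0 then A else 1) 0 k = A := by
    have h2 : ∀ n, n = m + 1 → pr (fun i : ZMod k => if i = 0 then A else 1) 0 n = A := by
      rintro n rfl
      show (if (0 : ZMod k) = 0 then A else 1) * pr _ ((0 : ZMod k) + 1) m = A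
      have h3 := pr_one (k := k) A m 1 le_rfl (by omega)
      rw [Nat.cast_one] at h3
      rw [if_pos rfl, zero_add, h3, Matrix.mul_one]
    exact h2 k hm
  show (if q.1 = (0 : ZMod k) + (k : ZMod k) then pr _ (0 : ZMod k) k v q.2 else 0) = _
  rw [h1, ZMod.natCast_self, add_zero]

theorem T_pow_pow (A : Matrix V V ℕ) (N : ℕ) : ∀ (v : V) (q : ZMod k × V),
    (T k A ^ (k * N)) (0, v) q = if q.1 = 0 then (A ^ N) v q.2 else 0 := by
  induction N with
  | zero =>
    rintro v ⟨j, w⟩
    rw [Nat.mul_zero, pow_zero, pow_zero, Matrix.one_apply, Matrix.one_apply]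
    by_cases h1 : j = 0
    · by_cases h2 : v = w
      · simp [h1, h2]
      · simp [h1, h2]
    · rw [if_neg h1, if_neg]
      intro h
      exact h1 (congrArg Prod.fst h).symm
  | succ N ih =>
    rintro v ⟨j, w⟩
    rw [Nat.mul_succ, add_comm, pow_add, Matrix.mul_apply, Fintype.sum_prod_type,
      Finset.sum_eq_single (0 : ZMod k)]
    · have e : ∀ x : V, (T k A ^ k) (0, v) (0, x) * (T k A ^ (k * N)) (0, x) (j, w) =
          if j = 0 then A v x * (A ^ N) x w else 0 := by
        intro x
        rw [ih, T_pow]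
        show (if (0 : ZMod k) = 0 then A v x else 0) * (if j = 0 then (A ^ N) x w else 0) = _
        rw [if_pos rfl]
        split_ifs
        · rfl
        · rw [mul_zero]
      rw [Finset.sum_congr rfl (fun x _ => e x), pow_succ', Matrix.mul_apply]
      split_ifs
      · rfl
      · exact Finset.sum_const_zero
    · intro b _ hb
      refine Finset.sum_eq_zero (fun x _ => ?_)
      rw [T_pow]
      show (if b = 0 then A v x else 0) * _ = 0
      rw [if_neg hb, zero_mul]
    · intro h
      exact absurd (Finset.mem_univ _) h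

theorem ess_T (A : Matrix V V ℕ) (v : V) : Ess (T k A) (0, v) ↔ Ess A v := by
  have hk0 : 1 ≤ k := Nat.one_le_iff_ne_zero.2 (NeZero.ne k)
  have hle : ∀ N, N ≤ k * N := fun N => Nat.le_mul_of_pos_left N hk0
  constructor
  · rintro ⟨h1, h2⟩
    refine ⟨fun N => ?_, fun N => ?_⟩
    · obtain ⟨q, hq⟩ := h1 (k * N)
      rw [T_pow_pow] at hq
      split_ifs at hq
      · exact ⟨q.2, hq⟩
      · exact absurd rfl hq
    · obtain ⟨⟨j, w⟩, hq⟩ := h2 (k * N)
      have hj : j = 0 := by
        have h3 := cyc_pow (fun i : ZMod k => if i = 0 then A else 1) (k * N) (j, w) (0, v)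
        have h4 : (cyc (fun i : ZMod k => if i = 0 then A else 1) ^ (k * N)) (j, w) (0, v) ≠ 0 := hq
        rw [h3] at h4
        split_ifs at h4 with h5
        · have h6 : (0 : ZMod k) = j + ((k * N : ℕ) : ZMod k) := h5
          rw [Nat.cast_mul, ZMod.natCast_self, zero_mul, add_zero] at h6
          exact h6.symm
        · exact absurd rfl h4
      subst hj
      rw [T_pow_pow] at hq
      exact ⟨w, by simpa using hq⟩
  · rintro ⟨h1, h2⟩
    refine ⟨fun N => ?_, fun N => ?_⟩
    · obtain ⟨w, hw⟩ := h1 N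
      have h3 : (T k A ^ (k * N)) (0, v) (0, w) ≠ 0 := by
        rw [T_pow_pow]; simpa using hw
      obtain ⟨d, hd⟩ := Nat.exists_eq_add_of_le (hle N)
      rw [hd] at h3
      obtain ⟨x, hx, _⟩ := pow_ne_iff.1 h3
      exact ⟨x, hx⟩
    · obtain ⟨w, hw⟩ := h2 N
      have h3 : (T k A ^ (k * N)) (0, w) (0, v) ≠ 0 := by
        rw [T_pow_pow]; simpa using hw
      obtain ⟨d, hd⟩ := Nat.exists_eq_add_of_le (hle N)
      rw [hd, add_comm] at h3
      obtain ⟨x, _, hx⟩ := pow_ne_iff.1 h3
      exact ⟨x, hx⟩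

theorem ret_T (A : Matrix V V ℕ) : El (ret (T k A) k Prod.fst) (sub A (Ess A)) := by
  classical
  let e : Sb (Ess A) ≃ Sb (fun p : ZMod k × V => Ess (T k A) p ∧ p.1 = 0) :=
    { toFun := fun x => ⟨(0, x.1), (ess_T A x.1).2 x.2, rfl⟩
      invFun := fun x => ⟨x.1.2, by
        obtain ⟨⟨i, v⟩, h1, h2⟩ := x
        have h2' : i = 0 := h2
        subst h2'
        exact (ess_T A v).1 h1⟩
      left_inv := fun _ => rfl
      right_inv := by
        rintro ⟨⟨i, v⟩, h1, h2⟩
        have h2' : i = 0 := h2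
        subst h2'
        rfl }
  have h := el_reindex (ret (T k A) k Prod.fst) e
  have e1 : (ret (T k A) k Prod.fst).submatrix e e = sub A (Ess A) := by
    ext x y
    show (T k A ^ k) (0, x.1) (0, y.1) = A x.1 y.1
    rw [T_pow]
    simp
  rwa [e1] at h

/-- towers preserve and reflect strong shift equivalence -/
theorem tower_iff (A : Matrix V V ℕ) (B : Matrix W W ℕ) : Sh (T k A) (T k B) ↔ Sh A B := by
  refine ⟨fun h => ?_, tower_sh⟩
  have h1 := inv_sh (NeZero.ne k) h Prod.fst Prod.fst (graded_cyc _) (graded_cyc _)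
  exact Sh.of_ess (((ret_T A).symm.sh.trans h1).trans (ret_T B).sh)

end Pool.Agent.Q126.SE
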