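import Pool.Agent.Q126.SE.Lst

set_option autoImplicit false

namespace Pool.Agent.Q126.SE

open Matrix Finset

variable {V W : Type} [Fintype V] [Fintype W] [DecidableEq V] [DecidableEq W]

/-- any two indices on closed walks are joined by a walk -/
def IrrM {V : Type} [Fintype V] [DecidableEq V] (A : Matrix V V ℕ) : Prop :=
  ∀ i j, (∃ n, 0 < n ∧ (A ^ n) i i ≠ 0) → (∃ n, 0 < n ∧ (A ^ n) j j ≠ 0) → ∃ n, (A ^ n) i j ≠ 0

theorem rs_pow (R : Matrix V W ℕ) (S : Matrix W V ℕ) (n : ℕ) :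
    (S * R) ^ (n + 1) = S * (R * S) ^ n * R := by
  induction n with
  | zero => simp
  | succ n ih =>
    rw [pow_succ, ih, pow_succ]
    simp only [Matrix.mul_assoc]

theorem walk3 {R : Matrix V W ℕ} {S : Matrix W V ℕ} {n : ℕ} {i j : W} :
    ((S * R) ^ (n + 1)) i j ≠ 0 ↔
      ∃ a b, S i a ≠ 0 ∧ ((R * S) ^ n) a b ≠ 0 ∧ R b j ≠ 0 := by
  rw [rs_pow, mul_ne]
  constructor
  · rintro ⟨b, h1, h2⟩
    obtain ⟨a, h3, h4⟩ := mul_ne.1 h1
    exact ⟨a, b, h3, h4, h2⟩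
  · rintro ⟨a, b, h1, h2, h3⟩
    exact ⟨b, mul_ne.2 ⟨a, h1, h2⟩, h3⟩

theorem irr_el {A : Matrix V V ℕ} {B : Matrix W W ℕ} (h : El A B) (hA : IrrM A) : IrrM B := by
  obtain ⟨R, S, h1, h2⟩ := h
  subst h1 h2
  rintro i j ⟨n, hn, hi⟩ ⟨m, hm, hj⟩
  obtain ⟨n, rfl⟩ : ∃ n', n = n' + 1 := ⟨n - 1, by omega⟩
  obtain ⟨m, rfl⟩ : ∃ m', m = m' + 1 := ⟨m - 1, by omega⟩
  obtain ⟨a, b, a1, a2, a3⟩ := walk3.1 hi
  obtain ⟨c, d, c1, c2, c3⟩ := walk3.1 hj
  have ha : ((R * S) ^ (n + 1)) a a ≠ 0 := by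
    rw [pow_succ]
    exact mul_ne.2 ⟨b, a2, mul_ne.2 ⟨i, a3, a1⟩⟩
  have hc : ((R * S) ^ (m + 1)) c c ≠ 0 := by
    rw [pow_succ]
    exact mul_ne.2 ⟨d, c2, mul_ne.2 ⟨j, c3, c1⟩⟩
  obtain ⟨N, hN⟩ := hA a c ⟨_, Nat.succ_pos _, ha⟩ ⟨_, Nat.succ_pos _, hc⟩
  exact ⟨N + m + 1, walk3.2 ⟨a, d, a1, pow_ne_iff.2 ⟨c, hN, c2⟩, c3⟩⟩

theorem irr_sh {A : Matrix V V ℕ} {B : Matrix W W ℕ} (h : Sh A B) (hA : IrrM A) : IrrM B := by
  have key : ∀ X Y : SqMat, SSE X Y → IrrM X.2 → IrrM Y.2 := by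
    intro X Y h
    unfold SSE at h
    induction h with
    | single h => exact irr_el h
    | tail _ h ih => exact fun hX => irr_el h (ih hX)
  exact irr_el (el_fin B).symm (key _ _ h (irr_el (el_fin A) hA))

theorem pow_closed {A : Matrix V V ℕ} {v : V} {n : ℕ} (h : (A ^ n) v v ≠ 0) (k : ℕ) :
    (A ^ (n * k)) v v ≠ 0 := by
  induction k with
  | zero => simp
  | succ k ih => exact pow_ne_iff.2 ⟨v, ih, h⟩

theorem irr_T {k : ℕ} [NeZero k] {A : Matrix V V ℕ} (hA : IrrM A) : IrrM (T k A) := by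
  have hk : 0 < k := Nat.pos_of_ne_zero (NeZero.ne k)
  -- a vertex on a closed walk is joined in both directions to a level zero vertex on a closed walk
  have key : ∀ p : ZMod k × V, (∃ n, 0 < n ∧ (T k A ^ n) p p ≠ 0) →
      ∃ z : V, (∃ n, 0 < n ∧ (A ^ n) z z ≠ 0) ∧ (∃ r, (T k A ^ r) p (0, z) ≠ 0) ∧
        ∃ r, (T k A ^ r) (0, z) p ≠ 0 := by
    rintro ⟨i, v⟩ ⟨n, hn, h⟩
    have h1 := pow_closed h k
    have hlt : (-i).val < k := ZMod.val_lt _
    have hle : (-i).val ≤ n * k := hlt.le.trans (Nat.le_mul_of_pos_left _ hn)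
    obtain ⟨d, hd⟩ := Nat.exists_eq_add_of_le hle
    rw [hd] at h1
    obtain ⟨⟨j, z⟩, h2, h3⟩ := pow_ne_iff.1 h1
    have hj : j = 0 := by
      have h4 := cyc_pow (fun i : ZMod k => if i = 0 then A else 1) (-i).val (i, v) (j, z)
      have h5 : (cyc (fun i : ZMod k => if i = 0 then A else 1) ^ (-i).val) (i, v) (j, z) ≠ 0 := h2
      rw [h4] at h5
      split_ifs at h5 with h6
      · have h7 : j = i + (((-i).val : ℕ) : ZMod k) := h6
        rw [h7, ZMod.natCast_zmod_val, add_neg_cancel]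
      · exact absurd rfl h5
    subst hj
    refine ⟨z, ⟨n, hn, ?_⟩, ⟨_, h2⟩, ⟨_, h3⟩⟩
    have h8 : (T k A ^ (k * n)) (0, z) (0, z) ≠ 0 := by
      rw [mul_comm, hd, add_comm]
      exact pow_ne_iff.2 ⟨(i, v), h3, h2⟩
    rw [T_pow_pow] at h8
    simpa using h8
  intro p q hp hq
  obtain ⟨z, hz, ⟨r, hr⟩, _⟩ := key p hp
  obtain ⟨w, hw, _, ⟨t, ht⟩⟩ := key q hq
  obtain ⟨N, hN⟩ := hA z w hz hw
  have h1 : (T k A ^ (k * N)) (0, z) (0, w) ≠ 0 := by
    rw [T_pow_pow]; simpa using hN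
  exact ⟨r + k * N + t, pow_ne_iff.2 ⟨(0, w), pow_ne_iff.2 ⟨(0, z), hr, h1⟩, ht⟩⟩

/-- any two indices on closed walks are joined by a walk -/
def Irr (X : SqMat) : Prop :=
  ∀ i j, (∃ n, 0 < n ∧ (X.2 ^ n) i i ≠ 0) → (∃ n, 0 < n ∧ (X.2 ^ n) j j ≠ 0) →
    ∃ n, (X.2 ^ n) i j ≠ 0

theorem irr_code (p : List (List ℕ)) (L : ℕ)
    (hp : p.length * p.length * Encodable.encode p + 1 ≤ L) (h : Irr (mat p)) :
    Irr (mat (code p L)) := by
  have : NeZero (2 * L) := ⟨by omega⟩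
  have h1 := (el_reindex (big (ent p) p.length (Encodable.encode p) L)
    (num L (p.length + L))).sh
  have h2 := big_sh (ent p) p.length (Encodable.encode p) L (ent_le p) (by omega)
  have h3 : IrrM (Matrix.of fun i j : Fin p.length => ent p i j) := h
  have h4 : IrrM ((big (ent p) p.length (Encodable.encode p) L).submatrix
      (num L (p.length + L)) (num L (p.length + L))) :=
    irr_sh (h2.symm.trans h1) (irr_T h3)
  rw [mat_code, lst_eq]
  exact h4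

/-- the reduction for the irreducible case -/
theorem reduction_irr (g : ℕ) :
    (∃ D : List (List ℕ) × List (List ℕ) → Prop, ComputablePred D ∧
      ∀ p, Irr (mat p.1) → Irr (mat p.2) → (D p ↔ SSE (mat p.1) (mat p.2))) ↔
    ∃ D : List (List ℕ) × List (List ℕ) → Prop, ComputablePred D ∧
      ∀ p, Irr (mat p.1) → Irr (mat p.2) → Sparse g (mat p.1) → Sparse g (mat p.2) →
        (D p ↔ SSE (mat p.1) (mat p.2)) := by
  refine ⟨fun ⟨D, h, h'⟩ => ⟨D, h, fun p h1 h2 _ _ => h' p h1 h2⟩, ?_⟩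
  rintro ⟨D, hD, hS⟩
  refine ⟨fun p => D (code p.1 (lev g p), code p.2 (lev g p)), ?_, fun p i1 i2 => ?_⟩
  · refine ComputablePred.computable_of_manyOneReducible ?_ hD
    refine ⟨fun p => (code p.1 (lev g p), code p.2 (lev g p)), ?_, fun p => Iff.rfl⟩
    exact (Primrec.pair (pr_code.comp Primrec.fst (lev_primrec g))
      (pr_code.comp Primrec.snd (lev_primrec g))).to_comp
  · have h1 : (g + 2) * (p.1.length * p.1.length * Encodable.encode p.1 + 1) ≤ lev g p := by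
      unfold lev; omega
    have h2 : (g + 2) * (p.2.length * p.2.length * Encodable.encode p.2 + 1) ≤ lev g p := by
      unfold lev; omega
    have h3 : g + 2 ≤ lev g p := by unfold lev; omega
    have k1 : p.1.length * p.1.length * Encodable.encode p.1 + 1 ≤ lev g p :=
      le_trans (Nat.le_mul_of_pos_left _ (by omega)) h1
    have k2 : p.2.length * p.2.length * Encodable.encode p.2 + 1 ≤ lev g p :=
      le_trans (Nat.le_mul_of_pos_left _ (by omega)) h2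
    exact (hS (code p.1 (lev g p), code p.2 (lev g p)) (irr_code p.1 (lev g p) k1 i1)
      (irr_code p.2 (lev g p) k2 i2) (sparse_code p.1 g (lev g p) (by omega) (by omega) h1)
      (sparse_code p.2 g (lev g p) (by omega) (by omega) h2)).trans
      (sse_code p.1 p.2 (lev g p) k1 k2)

end Pool.Agent.Q126.SE
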