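import Pool.Agent.Q126.SE.Ent

set_option autoImplicit false

namespace Pool.Agent.Q126.SE

open Matrix Finset

/-- the square matrix coded by a list of rows; missing entries are `0` -/
def mat (p : List (List ℕ)) : SqMat :=
  ⟨p.length, Matrix.of fun i j => (p.getD (i : ℕ) []).getD (j : ℕ) 0⟩

/-- `g`-sparse: entries at most `1`, row sum plus column sum at most `3` for each index, no closed
walk of positive length less than `g`, and the entries of the powers grow at most like
`(1 + 1 / (g + 1)) ^ j` -/
def Sparse (g : ℕ) (X : SqMat) : Prop :=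
  (∀ i j, X.2 i j ≤ 1) ∧ (∀ i, ∑ j, X.2 i j + ∑ j, X.2 j i ≤ 3) ∧
    (∀ j, 0 < j → j < g → (X.2 ^ j).trace = 0) ∧
    ∃ C : ℕ, ∀ (j : ℕ) (p q : Fin X.1), (X.2 ^ j) p q * (g + 1) ^ j ≤ C * (g + 2) ^ j

/-- entries of a list of rows -/
def ent (p : List (List ℕ)) (i j : ℕ) : ℕ := (p.getD i []).getD j 0

theorem getD_le (l : List ℕ) (j : ℕ) : l.getD j 0 ≤ Encodable.encode l := by
  induction l generalizing j with
  | nil => simp
  | cons x l ih =>
    rw [Encodable.encode_list_cons]
    cases j with
    | zero =>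
      show x ≤ _
      exact (Nat.left_le_pair x _).trans (Nat.le_succ _)
    | succ j =>
      show l.getD j 0 ≤ _
      exact (ih j).trans ((Nat.right_le_pair _ _).trans (Nat.le_succ _))

theorem ent_le (p : List (List ℕ)) (i j : ℕ) : ent p i j ≤ Encodable.encode p := by
  unfold ent
  refine (getD_le _ j).trans ?_
  induction p generalizing i with
  | nil => simp
  | cons x l ih =>
    rw [Encodable.encode_list_cons]
    cases i with
    | zero =>
      show Encodable.encode x ≤ _
      exact (Nat.left_le_pair _ _).trans (Nat.le_succ _)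
    | succ i =>
      show Encodable.encode (l.getD i []) ≤ _
      exact (ih i).trans ((Nat.right_le_pair _ _).trans (Nat.le_succ _))

/-- entries of the sparse matrix, numbered -/
def lst (a : ℕ → ℕ → ℕ) (n m L v w : ℕ) : ℕ :=
  if w / (n + L) = (v / (n + L) + 1) % (2 * L) then
    mv a n m L (v / (n + L)) (v % (n + L)) (w % (n + L)) else 0

/-- the list of rows of the sparse matrix -/
def code (p : List (List ℕ)) (L : ℕ) : List (List ℕ) :=
  (List.range (2 * L * (p.length + L))).map fun v =>
    (List.range (2 * L * (p.length + L))).map fun w =>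
      lst (ent p) p.length (Encodable.encode p) L v w

theorem mat_eq (q : List (List ℕ)) (N : ℕ) (f : ℕ → ℕ → ℕ) (hN : q.length = N)
    (hf : ∀ i j, i < N → j < N → (q.getD i []).getD j 0 = f i j) :
    mat q = ⟨N, Matrix.of fun i j => f i j⟩ := by
  subst hN
  unfold mat
  congr 1
  ext i j
  exact hf i j i.2 j.2

theorem getD_map {β : Type} (N : ℕ) (f : ℕ → β) (d : β) (i : ℕ) (h : i < N) :
    ((List.range N).map f).getD i d = f i := by
  rw [List.getD_eq_getElem _ _ (by simpa using h)]
  simp

theorem mat_code (p : List (List ℕ)) (L : ℕ) : mat (code p L) =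
    ⟨2 * L * (p.length + L), Matrix.of fun i j =>
      lst (ent p) p.length (Encodable.encode p) L i j⟩ := by
  refine mat_eq _ _ (fun i j => lst (ent p) p.length (Encodable.encode p) L i j) ?_ ?_
  · unfold code; simp
  · intro i j hi hj
    unfold code
    rw [getD_map _ _ _ _ hi, getD_map _ _ _ _ hj]

/-- numbering of the vertices -/
def num (L W : ℕ) [NeZero (2 * L)] : Fin (2 * L * W) ≃ ZMod (2 * L) × Fin W where
  toFun v := (((v : ℕ) / W : ℕ), ⟨(v : ℕ) % W, Nat.mod_lt _ (by
    rcases Nat.eq_zero_or_pos W with h | h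
    · subst h; exact absurd v.2 (by simp)
    · exact h)⟩)
  invFun q := ⟨q.1.val * W + q.2, by
    have h1 := ZMod.val_lt q.1
    have h2 := q.2.2
    calc q.1.val * W + q.2 < q.1.val * W + W := by omega
      _ = (q.1.val + 1) * W := by ring
      _ ≤ 2 * L * W := Nat.mul_le_mul_right _ h1⟩
  left_inv v := by
    have hW : 0 < W := by
      rcases Nat.eq_zero_or_pos W with h | h
      · subst h; exact absurd v.2 (by simp)
      · exact h
    have h1 : (v : ℕ) / W < 2 * L := (Nat.div_lt_iff_lt_mul hW).2 v.2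
    apply Fin.ext
    show (((v : ℕ) / W : ℕ) : ZMod (2 * L)).val * W + (v : ℕ) % W = v
    rw [ZMod.val_natCast, Nat.mod_eq_of_lt h1, mul_comm]
    exact Nat.div_add_mod _ _
  right_inv q := by
    obtain ⟨i, x, hx⟩ := q
    have h2 : (i.val * W + x) / W = i.val := by
      rw [mul_comm, Nat.mul_add_div (by omega), Nat.div_eq_of_lt hx, add_zero]
    have h3 : (i.val * W + x) % W = x := by
      rw [mul_comm, Nat.mul_add_mod, Nat.mod_eq_of_lt hx]
    refine Prod.ext ?_ (Fin.ext h3)
    show (((i.val * W + x) / W : ℕ) : ZMod (2 * L)) = i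
    rw [h2, ZMod.natCast_zmod_val]

theorem lst_eq (a : ℕ → ℕ → ℕ) (n m L : ℕ) [NeZero (2 * L)] :
    (Matrix.of fun i j : Fin (2 * L * (n + L)) => lst a n m L i j) =
      (big a n m L).submatrix (num L (n + L)) (num L (n + L)) := by
  ext v w
  have hW : 0 < n + L := by
    have := NeZero.ne (2 * L)
    omega
  have h1 : (v : ℕ) / (n + L) < 2 * L := (Nat.div_lt_iff_lt_mul hW).2 v.2
  have h2 : (w : ℕ) / (n + L) < 2 * L := (Nat.div_lt_iff_lt_mul hW).2 w.2
  show lst a n m L v w = if (((w : ℕ) / (n + L) : ℕ) : ZMod (2 * L)) =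
    (((v : ℕ) / (n + L) : ℕ) : ZMod (2 * L)) + 1 then
      blk a n m L (((v : ℕ) / (n + L) : ℕ) : ZMod (2 * L)).val ⟨(v : ℕ) % (n + L), _⟩
        ⟨(w : ℕ) % (n + L), _⟩ else 0
  rw [blk_of (ZMod.val_lt _), ZMod.val_natCast, Nat.mod_eq_of_lt h1]
  unfold lst
  refine if_congr ?_ rfl rfl
  rw [← Nat.cast_add_one, ZMod.natCast_eq_natCast_iff', Nat.mod_eq_of_lt h2]

theorem submatrix_pow {V W : Type} [Fintype V] [Fintype W] [DecidableEq V] [DecidableEq W]
    (A : Matrix V V ℕ) (e : W ≃ V) (j : ℕ) : (A.submatrix e e) ^ j = (A ^ j).submatrix e e := by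
  induction j with
  | zero => simp
  | succ j ih => rw [pow_succ, pow_succ, ih, Matrix.submatrix_mul_equiv]

/-- the sparse matrices are sparse -/
theorem sparse_code (p : List (List ℕ)) (g L : ℕ) (hg : g ≤ L) (h2 : 2 ≤ L)
    (hL : (g + 2) * (p.length * p.length * Encodable.encode p + 1) ≤ L) :
    Sparse g (mat (code p L)) := by
  have : NeZero (2 * L) := ⟨by omega⟩
  have ha : ∀ i j, ent p i j ≤ Encodable.encode p := ent_le p
  have hL1 : p.length * p.length * Encodable.encode p + 1 ≤ L :=
    le_trans (Nat.le_mul_of_pos_left _ (by omega)) hL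
  rw [mat_code, lst_eq]
  set B := big (ent p) p.length (Encodable.encode p) L with hB
  set e := num L (p.length + L) with he
  refine ⟨fun i j => big_le _ _ _ _ _ _, fun i => ?_, fun j h0 hj => ?_, ?_⟩
  · have h3 := big_deg (ent p) p.length (Encodable.encode p) L ha h2 hL1 (e i)
    show ∑ j, B (e i) (e j) + ∑ j, B (e j) (e i) ≤ 3
    rw [Equiv.sum_comp e (fun q => B (e i) q), Equiv.sum_comp e (fun q => B q (e i))]
    exact h3
  · show ((B.submatrix e e) ^ j).trace = 0
    rw [submatrix_pow]
    show ∑ i, (B ^ j) (e i) (e i) = 0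
    rw [Equiv.sum_comp e (fun q => (B ^ j) q q)]
    exact big_girth _ _ _ _ g (by omega) j h0 hj
  · obtain ⟨C, hC⟩ := big_growth (ent p) p.length (Encodable.encode p) L g ha hL
    refine ⟨C, fun j u v => ?_⟩
    show ((B.submatrix e e) ^ j) u v * (g + 1) ^ j ≤ C * (g + 2) ^ j
    rw [submatrix_pow]
    exact hC j _ _

/-- the sparse matrices are strong shift equivalent if and only if the given ones are -/
theorem sse_code (p q : List (List ℕ)) (L : ℕ)
    (hp : p.length * p.length * Encodable.encode p + 1 ≤ L)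
    (hq : q.length * q.length * Encodable.encode q + 1 ≤ L) :
    SSE (mat (code p L)) (mat (code q L)) ↔ SSE (mat p) (mat q) := by
  have : NeZero (2 * L) := ⟨by omega⟩
  have h := big_iff (ent p) (ent q) p.length q.length (Encodable.encode p) (Encodable.encode q) L
    (ent_le p) (ent_le q) (by omega) (by omega)
  rw [sse_iff (mat p) (mat q), sse_iff, mat_code, mat_code, lst_eq, lst_eq]
  refine Iff.trans ?_ h
  have h1 := (el_reindex (big (ent p) p.length (Encodable.encode p) L)
    (num L (p.length + L))).sh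
  have h2 := (el_reindex (big (ent q) q.length (Encodable.encode q) L)
    (num L (q.length + L))).sh
  exact ⟨fun hh => (h1.trans hh).trans h2.symm, fun hh => (h1.symm.trans hh).trans h2⟩

/-- the common number of levels (halved) -/
def lev (g : ℕ) (p : List (List ℕ) × List (List ℕ)) : ℕ :=
  g + 2 + (g + 2) * (p.1.length * p.1.length * Encodable.encode p.1 + 1) +
    (g + 2) * (p.2.length * p.2.length * Encodable.encode p.2 + 1)

theorem lev_primrec (g : ℕ) : Primrec (lev g) := by
  unfold lev
  have h1 : Primrec fun p : List (List ℕ) × List (List ℕ) => p.1.length :=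
    Primrec.list_length.comp Primrec.fst
  have h2 : Primrec fun p : List (List ℕ) × List (List ℕ) => p.2.length :=
    Primrec.list_length.comp Primrec.snd
  have h3 : Primrec fun p : List (List ℕ) × List (List ℕ) => Encodable.encode p.1 :=
    Primrec.encode.comp Primrec.fst
  have h4 : Primrec fun p : List (List ℕ) × List (List ℕ) => Encodable.encode p.2 :=
    Primrec.encode.comp Primrec.snd
  exact Primrec.nat_add.comp (Primrec.nat_add.comp (Primrec.const _)
    (Primrec.nat_mul.comp (Primrec.const _) (Primrec.nat_add.comp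
      (Primrec.nat_mul.comp (Primrec.nat_mul.comp h1 h1) h3) (Primrec.const _))))
    (Primrec.nat_mul.comp (Primrec.const _) (Primrec.nat_add.comp
      (Primrec.nat_mul.comp (Primrec.nat_mul.comp h2 h2) h4) (Primrec.const _)))

section
variable {α : Type} [Primcodable α] {p : α → List (List ℕ)} {n m L s x y e v w : α → ℕ}

theorem pr_ent (hp : Primrec p) (hx : Primrec x) (hy : Primrec y) :
    Primrec fun t => ent (p t) (x t) (y t) := by
  unfold ent
  exact (Primrec.list_getD 0).comp ((Primrec.list_getD []).comp hp hx) hy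

theorem pr_src (hn : Primrec n) (hm : Primrec m) (he : Primrec e) :
    Primrec fun t => src (n t) (m t) (e t) := by
  unfold src
  exact Primrec.nat_div.comp (Primrec.nat_div.comp he hm) hn

theorem pr_tgt (hn : Primrec n) (hm : Primrec m) (he : Primrec e) :
    Primrec fun t => tgt (n t) (m t) (e t) := by
  unfold tgt
  exact Primrec.nat_mod.comp (Primrec.nat_div.comp he hm) hn

theorem pr_act (hp : Primrec p) (hn : Primrec n) (hm : Primrec m) (he : Primrec e) :
    PrimrecPred fun t => act (ent (p t)) (n t) (m t) (e t) := by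
  unfold act
  exact (Primrec.nat_lt.comp (pr_src hn hm he) hn).and
    (Primrec.nat_lt.comp (Primrec.nat_mod.comp he hm) (pr_ent hp (pr_src hn hm he) (pr_tgt hn hm he)))

theorem pr_mv (hp : Primrec p) (hn : Primrec n) (hm : Primrec m) (hL : Primrec L)
    (hs : Primrec s) (hx : Primrec x) (hy : Primrec y) :
    Primrec fun t => mv (ent (p t)) (n t) (m t) (L t) (s t) (x t) (y t) := by
  unfold mv
  have h1 : Primrec fun t => s t + 1 := Primrec.succ.comp hs
  have h2 : Primrec fun t => 2 * L t := Primrec.nat_mul.comp (Primrec.const 2) hL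
  have h3 : Primrec fun t => s t - L t := Primrec.nat_sub.comp hs hL
  refine Primrec.nat_add.comp (Primrec.nat_add.comp ?_ ?_) ?_
  · refine Primrec.ite ?_ (Primrec.const 1) (Primrec.const 0)
    exact (Primrec.eq.comp hy hx).and
      (((Primrec.nat_lt.comp hx hn).and (Primrec.eq.comp hs hL).not).or
        ((Primrec.nat_le.comp hn hx).and (Primrec.eq.comp h1 h2).not))
  · refine Primrec.ite ?_ (Primrec.const 1) (Primrec.const 0)
    exact (Primrec.nat_lt.comp hs hL).and ((pr_act hp hn hm hs).and
      ((Primrec.eq.comp hx (pr_src hn hm hs)).and (Primrec.eq.comp hy (Primrec.nat_add.comp hn hs))))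
  · refine Primrec.ite ?_ (Primrec.const 1) (Primrec.const 0)
    exact (Primrec.nat_le.comp hL hs).and ((pr_act hp hn hm h3).and
      ((Primrec.eq.comp hx (Primrec.nat_add.comp hn h3)).and (Primrec.eq.comp hy (pr_tgt hn hm h3))))

theorem pr_lst (hp : Primrec p) (hn : Primrec n) (hm : Primrec m) (hL : Primrec L)
    (hv : Primrec v) (hw : Primrec w) :
    Primrec fun t => lst (ent (p t)) (n t) (m t) (L t) (v t) (w t) := by
  unfold lst
  have h0 : Primrec fun t => n t + L t := Primrec.nat_add.comp hn hL
  have h1 : Primrec fun t => v t / (n t + L t) := Primrec.nat_div.comp hv h0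
  have h2 : Primrec fun t => w t / (n t + L t) := Primrec.nat_div.comp hw h0
  have h3 : Primrec fun t => 2 * L t := Primrec.nat_mul.comp (Primrec.const 2) hL
  refine Primrec.ite ?_ ?_ (Primrec.const 0)
  · exact Primrec.eq.comp h2 (Primrec.nat_mod.comp (Primrec.succ.comp h1) h3)
  · exact pr_mv hp hn hm hL h1 (Primrec.nat_mod.comp hv h0) (Primrec.nat_mod.comp hw h0)

end

theorem pr_code : Primrec₂ code := by
  have h1 : Primrec fun t : List (List ℕ) × ℕ => t.1.length := Primrec.list_length.comp Primrec.fst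
  have h2 : Primrec fun t : List (List ℕ) × ℕ => 2 * t.2 * (t.1.length + t.2) :=
    Primrec.nat_mul.comp (Primrec.nat_mul.comp (Primrec.const 2) Primrec.snd)
      (Primrec.nat_add.comp h1 Primrec.snd)
  refine Primrec.list_map (Primrec.list_range.comp h2) ?_
  refine Primrec.list_map (Primrec.list_range.comp (h2.comp Primrec.fst)) ?_
  have q1 : Primrec fun t : ((List (List ℕ) × ℕ) × ℕ) × ℕ => t.1.1.1 :=
    Primrec.fst.comp (Primrec.fst.comp Primrec.fst)
  have q2 : Primrec fun t : ((List (List ℕ) × ℕ) × ℕ) × ℕ => t.1.1.2 :=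
    Primrec.snd.comp (Primrec.fst.comp Primrec.fst)
  have q3 : Primrec fun t : ((List (List ℕ) × ℕ) × ℕ) × ℕ => t.1.2 :=
    Primrec.snd.comp Primrec.fst
  exact pr_lst q1 (Primrec.list_length.comp q1) (Primrec.encode.comp q1) q2 q3 Primrec.snd

/-- the reduction -/
theorem reduction (g : ℕ) :
    ComputablePred (fun p : List (List ℕ) × List (List ℕ) => SSE (mat p.1) (mat p.2)) ↔
      ∃ D : List (List ℕ) × List (List ℕ) → Prop, ComputablePred D ∧
        ∀ p, Sparse g (mat p.1) → Sparse g (mat p.2) → (D p ↔ SSE (mat p.1) (mat p.2)) := by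
  refine ⟨fun h => ⟨_, h, fun p _ _ => Iff.rfl⟩, ?_⟩
  rintro ⟨D, hD, hS⟩
  refine ComputablePred.computable_of_manyOneReducible ?_ hD
  refine ⟨fun p => (code p.1 (lev g p), code p.2 (lev g p)), ?_, fun p => ?_⟩
  · exact (Primrec.pair (pr_code.comp Primrec.fst (lev_primrec g))
      (pr_code.comp Primrec.snd (lev_primrec g))).to_comp
  · have h1 : (g + 2) * (p.1.length * p.1.length * Encodable.encode p.1 + 1) ≤ lev g p := by
      unfold lev; omega
    have h2 : (g + 2) * (p.2.length * p.2.length * Encodable.encode p.2 + 1) ≤ lev g p := by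
      unfold lev; omega
    have h3 : g + 2 ≤ lev g p := by unfold lev; omega
    have k1 : p.1.length * p.1.length * Encodable.encode p.1 + 1 ≤ lev g p :=
      le_trans (Nat.le_mul_of_pos_left _ (by omega)) h1
    have k2 : p.2.length * p.2.length * Encodable.encode p.2 + 1 ≤ lev g p :=
      le_trans (Nat.le_mul_of_pos_left _ (by omega)) h2
    rw [hS _ (sparse_code p.1 g _ (by omega) (by omega) h1)
      (sparse_code p.2 g _ (by omega) (by omega) h2)]
    exact (sse_code p.1 p.2 _ k1 k2).symm

end Pool.Agent.Q126.SE
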