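import Pool.Agent.Q126.SE.Inv

set_option autoImplicit false

namespace Pool.Agent.Q126.SE

open Matrix Finset

/-- source of the slot `e` -/
def src (n m e : ℕ) : ℕ := e / m / n

/-- target of the slot `e` -/
def tgt (n m e : ℕ) : ℕ := e / m % n

/-- the slot `e` is an edge -/
def act (a : ℕ → ℕ → ℕ) (n m e : ℕ) : Prop := src n m e < n ∧ e % m < a (src n m e) (tgt n m e)

instance (a : ℕ → ℕ → ℕ) (n m e : ℕ) : Decidable (act a n m e) := by
  unfold act; infer_instance

/-- the block from level `s` to level `s + 1` -/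
def mv (a : ℕ → ℕ → ℕ) (n m L s x y : ℕ) : ℕ :=
  (if y = x ∧ ((x < n ∧ s ≠ L) ∨ (n ≤ x ∧ s + 1 ≠ 2 * L)) then 1 else 0) +
  (if s < L ∧ act a n m s ∧ x = src n m s ∧ y = n + s then 1 else 0) +
  (if L ≤ s ∧ act a n m (s - L) ∧ x = n + (s - L) ∧ y = tgt n m (s - L) then 1 else 0)

/-- number of the edges among the slots below `r` from `i` to `y` -/
def cnt (a : ℕ → ℕ → ℕ) (n m i y r : ℕ) : ℕ :=
  ((range r).filter fun e => act a n m e ∧ src n m e = i ∧ tgt n m e = y).card

/-- the number of walks from `i` on level `0` to `y` on level `s` -/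
def F (a : ℕ → ℕ → ℕ) (n m L i s y : ℕ) : ℕ :=
  if s ≤ L then
    (if y = i then 1 else 0) +
      (if n ≤ y ∧ y - n < s ∧ act a n m (y - n) ∧ src n m (y - n) = i then 1 else 0)
  else
    (if n ≤ y ∧ s < 2 * L ∧ act a n m (y - n) ∧ src n m (y - n) = i then 1 else 0) +
      (if y < n then cnt a n m i y (s - L) else 0)

theorem tgt_lt {a : ℕ → ℕ → ℕ} {n m e : ℕ} (h : act a n m e) : tgt n m e < n :=
  Nat.mod_lt _ (by have := h.1; omega)

theorem cnt_succ (a : ℕ → ℕ → ℕ) (n m i y r : ℕ) : cnt a n m i y (r + 1) =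
    cnt a n m i y r + if act a n m r ∧ src n m r = i ∧ tgt n m r = y then 1 else 0 := by
  unfold cnt
  rw [Finset.range_add_one, Finset.filter_insert]
  split_ifs with h
  · rw [Finset.card_insert_of_notMem (by simp)]
  · rfl

theorem cnt_eq (a : ℕ → ℕ → ℕ) (n m L i y : ℕ) (ha : ∀ i j, a i j ≤ m) (hi : i < n) (hy : y < n)
    (hL : n * n * m ≤ L) : cnt a n m i y L = a i y := by
  unfold cnt
  rcases Nat.eq_zero_or_pos m with hm | hm
  · subst hm
    have h0 : a i y = 0 := Nat.le_zero.1 (ha i y)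
    rw [h0, Finset.card_eq_zero, Finset.filter_eq_empty_iff]
    rintro e _ ⟨h1, _⟩
    have h2 := h1.2
    have h3 := ha (src n 0 e) (tgt n 0 e)
    omega
  · have hset : (range L).filter (fun e => act a n m e ∧ src n m e = i ∧ tgt n m e = y) =
        (range (a i y)).image fun t => (i * n + y) * m + t := by
      ext e
      rw [Finset.mem_filter, Finset.mem_image, Finset.mem_range]
      constructor
      · rintro ⟨_, ⟨h1, h2⟩, h3, h4⟩
        rw [h3, h4] at h2
        refine ⟨e % m, Finset.mem_range.2 h2, ?_⟩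
        have e1 : e / m = i * n + y := by
          have := Nat.div_add_mod (e / m) n
          unfold src at h3
          unfold tgt at h4
          rw [h3, h4] at this
          rw [← this]; ring
        rw [← e1]
        have := Nat.div_add_mod e m
        rw [mul_comm]
        exact this
      · rintro ⟨t, ht, rfl⟩
        rw [Finset.mem_range] at ht
        have ht' : t < m := lt_of_lt_of_le ht (ha i y)
        have e1 : ((i * n + y) * m + t) / m = i * n + y := by
          rw [mul_comm, Nat.mul_add_div hm, Nat.div_eq_of_lt ht', add_zero]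
        have e2 : ((i * n + y) * m + t) % m = t := by
          rw [mul_comm, Nat.mul_add_mod, Nat.mod_eq_of_lt ht']
        have e3 : (i * n + y) / n = i := by
          rw [mul_comm, Nat.mul_add_div (by omega), Nat.div_eq_of_lt hy, add_zero]
        have e4 : (i * n + y) % n = y := by
          rw [mul_comm, Nat.mul_add_mod, Nat.mod_eq_of_lt hy]
        have s1 : src n m ((i * n + y) * m + t) = i := by unfold src; rw [e1, e3]
        have s2 : tgt n m ((i * n + y) * m + t) = y := by unfold tgt; rw [e1, e4]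
        refine ⟨?_, ⟨by rw [s1]; exact hi, by rw [s1, s2, e2]; exact ht⟩, s1, s2⟩
        have h5 : i * n + y + 1 ≤ n * n := by
          have : (i + 1) * n ≤ n * n := Nat.mul_le_mul_right n (by omega)
          nlinarith
        have h6 : (i * n + y + 1) * m ≤ n * n * m := Nat.mul_le_mul_right m h5
        nlinarith
    rw [hset, Finset.card_image_of_injective _ (fun x y h => by simpa using h), Finset.card_range]

theorem F_step (a : ℕ → ℕ → ℕ) (n m L i s : ℕ) (hi : i < n) (hs : s < 2 * L)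
    (y : ℕ) (hy : y < n + L) :
    ∑ x : Fin (n + L), F a n m L i s x * mv a n m L s x y = F a n m L i (s + 1) y := by
  have e : ∀ x : Fin (n + L), F a n m L i s x * mv a n m L s x y =
      (if (x : ℕ) = y then (if (y < n ∧ s ≠ L) ∨ (n ≤ y ∧ s + 1 ≠ 2 * L) then
        F a n m L i s y else 0) else 0) +
      (if (x : ℕ) = src n m s then (if s < L ∧ act a n m s ∧ y = n + s then
        F a n m L i s (src n m s) else 0) else 0) +
      (if (x : ℕ) = n + (s - L) then (if L ≤ s ∧ act a n m (s - L) ∧ y = tgt n m (s - L) then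
        F a n m L i s (n + (s - L)) else 0) else 0) := by
    intro x
    unfold mv
    rw [mul_add, mul_add]
    congr 1
    · congr 1
      · by_cases h1 : (x : ℕ) = y
        · rw [if_pos h1, h1]
          by_cases h3 : (y < n ∧ s ≠ L) ∨ (n ≤ y ∧ s + 1 ≠ 2 * L)
          · rw [if_pos ⟨rfl, h3⟩, if_pos h3, mul_one]
          · rw [if_neg (fun h => h3 h.2), if_neg h3, mul_zero]
        · rw [if_neg (fun h => h1 h.1.symm), if_neg h1, mul_zero]
      · by_cases h1 : (x : ℕ) = src n m s
        · rw [if_pos h1, h1]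
          by_cases h3 : s < L ∧ act a n m s ∧ y = n + s
          · rw [if_pos ⟨h3.1, h3.2.1, rfl, h3.2.2⟩, if_pos h3, mul_one]
          · rw [if_neg (fun h => h3 ⟨h.1, h.2.1, h.2.2.2⟩), if_neg h3, mul_zero]
        · rw [if_neg (fun h => h1 h.2.2.1), if_neg h1, mul_zero]
    · by_cases h1 : (x : ℕ) = n + (s - L)
      · rw [if_pos h1, h1]
        by_cases h3 : L ≤ s ∧ act a n m (s - L) ∧ y = tgt n m (s - L)
        · rw [if_pos ⟨h3.1, h3.2.1, rfl, h3.2.2⟩, if_pos h3, mul_one]
        · rw [if_neg (fun h => h3 ⟨h.1, h.2.1, h.2.2.2⟩), if_neg h3, mul_zero]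
      · rw [if_neg (fun h => h1 h.2.2.1), if_neg h1, mul_zero]
  rw [Finset.sum_congr rfl (fun x _ => e x), Finset.sum_add_distrib, Finset.sum_add_distrib]
  have sum2 : ∀ (z c : ℕ), z < n + L → ∑ x : Fin (n + L), (if (x : ℕ) = z then c else 0) = c := by
    intro z c hz
    rw [Finset.sum_eq_single (⟨z, hz⟩ : Fin (n + L))]
    · simp
    · intro b _ hb
      rw [if_neg (fun h => hb (Fin.ext h))]
    · simp
  have t2 : ∑ x : Fin (n + L), (if (x : ℕ) = src n m s then
      (if s < L ∧ act a n m s ∧ y = n + s then F a n m L i s (src n m s) else 0) else 0) =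
      if s < L ∧ act a n m s ∧ y = n + s then F a n m L i s (src n m s) else 0 := by
    by_cases h : s < L ∧ act a n m s ∧ y = n + s
    · exact sum2 _ _ (by have := h.2.1.1; omega)
    · rw [if_neg h]; simp
  have t3 : ∑ x : Fin (n + L), (if (x : ℕ) = n + (s - L) then
      (if L ≤ s ∧ act a n m (s - L) ∧ y = tgt n m (s - L) then F a n m L i s (n + (s - L)) else 0)
        else 0) =
      if L ≤ s ∧ act a n m (s - L) ∧ y = tgt n m (s - L) then F a n m L i s (n + (s - L)) else 0 :=
    sum2 _ _ (by omega)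
  rw [t2, t3, sum2 y _ hy]
  clear t2 t3 sum2 e
  rcases Nat.lt_or_ge y n with hyn | hyn
  · -- y < n
    have hD2 : ¬ (s < L ∧ act a n m s ∧ y = n + s) := fun h => by omega
    rw [if_neg hD2, add_zero]
    rcases lt_trichotomy s L with h | h | h
    · have c1 : (y < n ∧ s ≠ L) ∨ (n ≤ y ∧ s + 1 ≠ 2 * L) := Or.inl ⟨hyn, h.ne⟩
      have c2 : ¬ (L ≤ s ∧ act a n m (s - L) ∧ y = tgt n m (s - L)) := fun h' => by omega
      have c3 : ¬ (n ≤ y ∧ y - n < s ∧ act a n m (y - n) ∧ src n m (y - n) = i) :=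
        fun h' => by omega
      have c4 : ¬ (n ≤ y ∧ y - n < s + 1 ∧ act a n m (y - n) ∧ src n m (y - n) = i) :=
        fun h' => by omega
      have c5 : s + 1 ≤ L := h
      rw [if_pos c1, if_neg c2]
      unfold F
      rw [if_pos h.le, if_pos c5, if_neg c3, if_neg c4]
    · subst h
      have c1 : ¬ ((y < n ∧ s ≠ s) ∨ (n ≤ y ∧ s + 1 ≠ 2 * s)) := fun h' => by omega
      have c3 : ¬ (n ≤ y ∧ s + 1 < 2 * s ∧ act a n m (y - n) ∧ src n m (y - n) = i) :=
        fun h' => by omega
      rw [if_neg c1, Nat.sub_self, zero_add]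
      unfold F
      rw [if_pos (le_refl s), if_neg (by omega : ¬ s + 1 ≤ s), if_neg (by omega : ¬ n + 0 = i),
        if_neg c3, if_pos hyn, Nat.add_sub_cancel_left, zero_add, zero_add,
        Nat.add_sub_cancel_left]
      have h0 : cnt a n m i y 1 = if act a n m 0 ∧ src n m 0 = i ∧ tgt n m 0 = y then 1 else 0 := by
        rw [show (1 : ℕ) = 0 + 1 from rfl, cnt_succ]
        have : cnt a n m i y 0 = 0 := by simp [cnt]
        rw [this, zero_add]
      rw [h0]
      by_cases h1 : act a n m 0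
      · by_cases h2 : src n m 0 = i
        · by_cases h3 : y = tgt n m 0
          · rw [if_pos ⟨le_rfl, h1, h3⟩, if_pos ⟨by omega, by omega, h1, h2⟩,
              if_pos ⟨h1, h2, h3.symm⟩]
          · rw [if_neg (fun h => h3 h.2.2), if_neg (fun h => h3 h.2.2.symm)]
        · have d1 : ¬ (n ≤ n + 0 ∧ 0 < s ∧ act a n m 0 ∧ src n m 0 = i) := fun h => h2 h.2.2.2
          have d2 : ¬ (act a n m 0 ∧ src n m 0 = i ∧ tgt n m 0 = y) := fun h => h2 h.2.1
          rw [if_neg d1, if_neg d2, ite_self]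
      · rw [if_neg (fun h => h1 h.2.1), if_neg (fun h => h1 h.1)]
    · have c1 : (y < n ∧ s ≠ L) ∨ (n ≤ y ∧ s + 1 ≠ 2 * L) := Or.inl ⟨hyn, h.ne'⟩
      rw [if_pos c1]
      obtain ⟨r, rfl⟩ := Nat.exists_eq_add_of_lt h
      have e1 : L + r + 1 - L = r + 1 := by omega
      have e2 : L + r + 1 + 1 - L = r + 1 + 1 := by omega
      have c2 : ¬ (n ≤ y ∧ L + r + 1 < 2 * L ∧ act a n m (y - n) ∧ src n m (y - n) = i) :=
        fun h' => by omega
      have c3 : ¬ (n ≤ y ∧ L + r + 1 + 1 < 2 * L ∧ act a n m (y - n) ∧ src n m (y - n) = i) :=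
        fun h' => by omega
      rw [e1]
      unfold F
      rw [if_neg (by omega : ¬ L + r + 1 ≤ L), if_neg (by omega : ¬ L + r + 1 ≤ L),
        if_neg (by omega : ¬ L + r + 1 + 1 ≤ L), if_neg c2, if_neg c3,
        if_pos hyn, if_pos hyn, if_neg (by omega : ¬ n + (r + 1) < n), e1, e2,
        cnt_succ _ _ _ _ _ (r + 1), Nat.add_sub_cancel_left, zero_add, zero_add, add_zero]
      congr 1
      by_cases h1 : act a n m (r + 1)
      · by_cases h2 : src n m (r + 1) = i
        · by_cases h3 : y = tgt n m (r + 1)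
          · rw [if_pos ⟨by omega, h1, h3⟩, if_pos ⟨by omega, hs, h1, h2⟩, if_pos ⟨h1, h2, h3.symm⟩]
          · rw [if_neg (fun h => h3 h.2.2), if_neg (fun h => h3 h.2.2.symm)]
        · have d1 : ¬ (n ≤ n + (r + 1) ∧ L + r + 1 < 2 * L ∧ act a n m (r + 1) ∧
            src n m (r + 1) = i) := fun h => h2 h.2.2.2
          have d2 : ¬ (act a n m (r + 1) ∧ src n m (r + 1) = i ∧ tgt n m (r + 1) = y) :=
            fun h => h2 h.2.1
          rw [if_neg d1, if_neg d2, ite_self]
      · rw [if_neg (fun h => h1 h.2.1), if_neg (fun h => h1 h.1)]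
  · -- n ≤ y
    have hD3 : ¬ (L ≤ s ∧ act a n m (s - L) ∧ y = tgt n m (s - L)) := fun h => by
      have := tgt_lt h.2.1
      omega
    rw [if_neg hD3, add_zero]
    rcases lt_or_ge s L with h | h
    · have c1 : (y < n ∧ s ≠ L) ∨ (n ≤ y ∧ s + 1 ≠ 2 * L) := Or.inr ⟨hyn, by omega⟩
      rw [if_pos c1]
      unfold F
      rw [if_pos h.le, if_pos h.le, if_pos (by omega : s + 1 ≤ L),
        if_neg (by omega : ¬ y = i), zero_add, zero_add]
      by_cases h1 : act a n m s ∧ y = n + s
      · obtain ⟨h1, rfl⟩ := h1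
        have c2 : ¬ (n ≤ n + s ∧ n + s - n < s ∧ act a n m (n + s - n) ∧
          src n m (n + s - n) = i) := fun h' => by omega
        have c3 : ¬ (n ≤ src n m s ∧ src n m s - n < s ∧ act a n m (src n m s - n) ∧
          src n m (src n m s - n) = i) := fun h' => by have := h1.1; omega
        have c4 : s < L ∧ act a n m s ∧ n + s = n + s := ⟨h, h1, rfl⟩
        rw [if_neg c2, if_pos c4, if_neg c3, Nat.add_sub_cancel_left, zero_add, add_zero]
        by_cases h2 : src n m s = i
        · rw [if_pos h2, if_pos ⟨by omega, by omega, h1, h2⟩]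
        · rw [if_neg h2, if_neg (fun h => h2 h.2.2.2)]
      · rw [if_neg (fun h' : s < L ∧ act a n m s ∧ y = n + s => h1 h'.2), add_zero]
        by_cases h2 : n ≤ y ∧ y - n < s ∧ act a n m (y - n) ∧ src n m (y - n) = i
        · rw [if_pos h2, if_pos ⟨h2.1, by omega, h2.2.2⟩]
        · rw [if_neg h2, if_neg]
          rintro ⟨g1, g2, g3, g4⟩
          by_cases g5 : y - n = s
          · rw [g5] at g3
            exact h1 ⟨g3, by omega⟩
          · exact h2 ⟨g1, by omega, g3, g4⟩
    · rw [if_neg (fun h' : s < L ∧ act a n m s ∧ y = n + s => by omega), add_zero]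
      unfold F
      rw [if_neg (by omega : ¬ s + 1 ≤ L), if_neg (by omega : ¬ y < n), if_neg (by omega : ¬ y < n),
        if_neg (by omega : ¬ y = i)]
      by_cases h1 : s + 1 = 2 * L
      · have c1 : ¬ ((y < n ∧ s ≠ L) ∨ (n ≤ y ∧ s + 1 ≠ 2 * L)) := fun h' => by omega
        have c2 : ¬ (n ≤ y ∧ s + 1 < 2 * L ∧ act a n m (y - n) ∧ src n m (y - n) = i) :=
          fun h' => by omega
        rw [if_neg c1, if_neg c2]
      · have c1 : (y < n ∧ s ≠ L) ∨ (n ≤ y ∧ s + 1 ≠ 2 * L) := Or.inr ⟨hyn, h1⟩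
        rw [if_pos c1]
        rcases Nat.eq_or_lt_of_le h with h2 | h2
        · subst h2
          rw [if_pos (le_refl L), zero_add, add_zero]
          by_cases h3 : act a n m (y - n) ∧ src n m (y - n) = i
          · rw [if_pos ⟨hyn, by omega, h3⟩, if_pos ⟨hyn, by omega, h3⟩]
          · rw [if_neg (fun h => h3 h.2.2), if_neg (fun h => h3 h.2.2)]
        · rw [if_neg (by omega : ¬ s ≤ L), add_zero, add_zero]
          by_cases h3 : act a n m (y - n) ∧ src n m (y - n) = i
          · rw [if_pos ⟨hyn, by omega, h3⟩, if_pos ⟨hyn, by omega, h3⟩]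
          · rw [if_neg (fun h => h3 h.2.2), if_neg (fun h => h3 h.2.2)]

end Pool.Agent.Q126.SE
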