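import Pool.Agent.Q126.SE.Spa

set_option autoImplicit false

namespace Pool.Agent.Q126.SE

open Matrix Finset

/-- the blocks -/
def blk (a : ℕ → ℕ → ℕ) (n m L : ℕ) (s : ℕ) : Matrix (Fin (n + L)) (Fin (n + L)) ℕ :=
  if s < 2 * L then Matrix.of fun x y => mv a n m L s x y else 1

/-- the sparse matrix -/
def big (a : ℕ → ℕ → ℕ) (n m L : ℕ) :
    Matrix (ZMod (2 * L) × Fin (n + L)) (ZMod (2 * L) × Fin (n + L)) ℕ :=
  cyc fun i => blk a n m L i.val

theorem blk_of {a : ℕ → ℕ → ℕ} {n m L s : ℕ} (h : s < 2 * L) (x y : Fin (n + L)) :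
    blk a n m L s x y = mv a n m L s x y := by
  unfold blk
  rw [if_pos h]; rfl

theorem prod_blk (a : ℕ → ℕ → ℕ) (n m L i : ℕ) (hi : i < n) (j : ℕ) (hj : j < 2 * L)
    (y : Fin (n + L)) :
    prodTo (blk a n m L) j ⟨i, by omega⟩ y = F a n m L i (j + 1) y := by
  induction j generalizing y with
  | zero =>
    show blk a n m L 0 ⟨i, by omega⟩ y = _
    rw [blk_of hj, ← F_step a n m L i 0 hi hj y y.2, Finset.sum_eq_single (⟨i, by omega⟩ : Fin (n + L))]
    · have : F a n m L i 0 i = 1 := by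
        unfold F
        have c : ¬ (n ≤ i ∧ i - n < 0 ∧ act a n m (i - n) ∧ src n m (i - n) = i) :=
          fun h => by omega
        rw [if_pos (Nat.zero_le _), if_pos rfl, if_neg c]
      show _ = F a n m L i 0 i * _
      rw [this, one_mul]
    · intro b _ hb
      have : F a n m L i 0 b = 0 := by
        unfold F
        have c : ¬ (n ≤ (b : ℕ) ∧ (b : ℕ) - n < 0 ∧ act a n m (b - n) ∧ src n m (b - n) = i) :=
          fun h => by omega
        rw [if_pos (Nat.zero_le _), if_neg (fun h => hb (Fin.ext h)), if_neg c]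
      rw [this, zero_mul]
    · simp
  | succ j ih =>
    show (prodTo (blk a n m L) j * blk a n m L (j + 1)) _ y = _
    rw [Matrix.mul_apply, ← F_step a n m L i (j + 1) hi hj y y.2]
    refine Finset.sum_congr rfl (fun x _ => ?_)
    rw [ih (by omega) x, blk_of hj]

theorem prod_col (a : ℕ → ℕ → ℕ) (n m L : ℕ) (hL : 1 ≤ L) (x y : Fin (n + L)) (hy : n ≤ (y : ℕ)) :
    prodTo (blk a n m L) (2 * L - 1) x y = 0 := by
  obtain ⟨j, hj⟩ : ∃ j, 2 * L - 1 = j + 1 := ⟨2 * L - 2, by omega⟩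
  rw [hj]
  show (prodTo (blk a n m L) j * blk a n m L (j + 1)) x y = 0
  rw [Matrix.mul_apply]
  refine Finset.sum_eq_zero (fun z _ => ?_)
  rw [blk_of (by omega)]
  have : mv a n m L (j + 1) z y = 0 := by
    unfold mv
    have c1 : ¬ ((y : ℕ) = z ∧ (((z : ℕ) < n ∧ j + 1 ≠ L) ∨ (n ≤ (z : ℕ) ∧ j + 1 + 1 ≠ 2 * L))) :=
      fun h => by omega
    have c2 : ¬ (j + 1 < L ∧ act a n m (j + 1) ∧ (z : ℕ) = src n m (j + 1) ∧
      (y : ℕ) = n + (j + 1)) := fun h => by omega
    have c3 : ¬ (L ≤ j + 1 ∧ act a n m (j + 1 - L) ∧ (z : ℕ) = n + (j + 1 - L) ∧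
      (y : ℕ) = tgt n m (j + 1 - L)) := fun h => by
        have := tgt_lt h.2.1
        omega
    rw [if_neg c1, if_neg c2, if_neg c3]
  rw [this, mul_zero]

theorem prod_el (a : ℕ → ℕ → ℕ) (n m L : ℕ) (ha : ∀ i j, a i j ≤ m) (hL : 1 ≤ L)
    (hL' : n * n * m ≤ L) :
    El (prodTo (blk a n m L) (2 * L - 1)) (Matrix.of fun i j : Fin n => a i j) := by
  refine ⟨fun x j => prodTo (blk a n m L) (2 * L - 1) x ⟨j, by omega⟩,
    fun i y => if (y : ℕ) = i then 1 else 0, ?_, ?_⟩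
  · ext x y
    show _ = ∑ j : Fin n, prodTo (blk a n m L) (2 * L - 1) x ⟨j, by omega⟩ *
      (if (y : ℕ) = j then 1 else 0)
    by_cases hy : (y : ℕ) < n
    · rw [Finset.sum_eq_single (⟨y, hy⟩ : Fin n)]
      · simp
      · intro b _ hb
        rw [if_neg (fun h => hb (Fin.ext h.symm)), mul_zero]
      · simp
    · rw [prod_col a n m L hL x y (by omega), eq_comm]
      refine Finset.sum_eq_zero (fun b _ => ?_)
      rw [if_neg (fun h => hy (by rw [h]; exact b.2)), mul_zero]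
  · ext i j
    show _ = ∑ y : Fin (n + L), (if (y : ℕ) = i then 1 else 0) *
      prodTo (blk a n m L) (2 * L - 1) y ⟨j, by omega⟩
    rw [Finset.sum_eq_single (⟨i, by omega⟩ : Fin (n + L))]
    · rw [if_pos rfl, one_mul, prod_blk a n m L i i.2 _ (by omega)]
      show a i j = F a n m L i (2 * L - 1 + 1) j
      rw [show 2 * L - 1 + 1 = 2 * L by omega]
      unfold F
      have c : ¬ (n ≤ (j : ℕ) ∧ 2 * L < 2 * L ∧ act a n m (j - n) ∧ src n m (j - n) = i) :=
        fun h => by omega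
      rw [if_neg (by omega : ¬ 2 * L ≤ L), if_neg c, if_pos j.2, zero_add,
        show 2 * L - L = L by omega, cnt_eq a n m L i j ha i.2 j.2 hL']
    · intro b _ hb
      rw [if_neg (fun h => hb (Fin.ext h)), zero_mul]
    · simp

theorem big_sh (a : ℕ → ℕ → ℕ) (n m L : ℕ) [NeZero (2 * L)] (ha : ∀ i j, a i j ≤ m)
    (hL' : n * n * m ≤ L) : Sh (big a n m L) (T (2 * L) (Matrix.of fun i j : Fin n => a i j)) := by
  have hL : 1 ≤ L := by have := NeZero.ne (2 * L); omega
  have h := collapse (k := 2 * L) (blk a n m L) (fun s hs => by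
    unfold blk
    rw [if_neg (by omega)])
  exact h.trans (tower_el (prod_el a n m L ha hL hL'))

/-- the main equivalence -/
theorem big_iff (a b : ℕ → ℕ → ℕ) (n n' m m' L : ℕ) [NeZero (2 * L)] (ha : ∀ i j, a i j ≤ m)
    (hb : ∀ i j, b i j ≤ m') (h : n * n * m ≤ L) (h' : n' * n' * m' ≤ L) :
    Sh (big a n m L) (big b n' m' L) ↔
      Sh (Matrix.of fun i j : Fin n => a i j) (Matrix.of fun i j : Fin n' => b i j) := by
  rw [← tower_iff (k := 2 * L) (Matrix.of fun i j : Fin n => a i j)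
    (Matrix.of fun i j : Fin n' => b i j)]
  exact ⟨fun hh => ((big_sh a n m L ha h).symm.trans hh).trans (big_sh b n' m' L hb h'),
    fun hh => ((big_sh a n m L ha h).trans hh).trans (big_sh b n' m' L hb h').symm⟩

/-- entries -/
theorem mv_le (a : ℕ → ℕ → ℕ) (n m L s x y : ℕ) : mv a n m L s x y ≤ 1 := by
  unfold mv
  by_cases c1 : y = x ∧ ((x < n ∧ s ≠ L) ∨ (n ≤ x ∧ s + 1 ≠ 2 * L))
  · have c2 : ¬ (s < L ∧ act a n m s ∧ x = src n m s ∧ y = n + s) := fun h => by
      have := h.2.1.1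
      omega
    have c3 : ¬ (L ≤ s ∧ act a n m (s - L) ∧ x = n + (s - L) ∧ y = tgt n m (s - L)) := fun h => by
      have := tgt_lt h.2.1
      omega
    rw [if_pos c1, if_neg c2, if_neg c3]
  · rw [if_neg c1]
    by_cases c2 : s < L ∧ act a n m s ∧ x = src n m s ∧ y = n + s
    · have c3 : ¬ (L ≤ s ∧ act a n m (s - L) ∧ x = n + (s - L) ∧ y = tgt n m (s - L)) :=
        fun h => by omega
      rw [if_pos c2, if_neg c3]
    · rw [if_neg c2]
      split_ifs <;> omega

theorem big_le (a : ℕ → ℕ → ℕ) (n m L : ℕ) [NeZero (2 * L)] (p q : ZMod (2 * L) × Fin (n + L)) :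
    big a n m L p q ≤ 1 := by
  show (if q.1 = p.1 + 1 then blk a n m L p.1.val p.2 q.2 else 0) ≤ 1
  split_ifs
  · rw [blk_of (ZMod.val_lt _)]
    exact mv_le _ _ _ _ _ _ _
  · omega

/-- the out-degree -/
theorem out_deg (a : ℕ → ℕ → ℕ) (n m L s : ℕ) (x : ℕ) :
    ∑ y : Fin (n + L), mv a n m L s x y ≤
      (if (x < n ∧ s ≠ L) ∨ (n ≤ x ∧ s + 1 ≠ 2 * L) then 1 else 0) +
      (if s < L ∧ act a n m s ∧ x = src n m s then 1 else 0) +
      (if L ≤ s ∧ act a n m (s - L) ∧ x = n + (s - L) then 1 else 0) := by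
  have sum1 : ∀ (z c : ℕ) (P : Prop) [Decidable P], ∑ y : Fin (n + L),
      (if P ∧ (y : ℕ) = z then 1 else 0) ≤ if P then 1 else 0 := by
    intro z c P _
    by_cases hP : P
    · rw [if_pos hP]
      calc ∑ y : Fin (n + L), (if P ∧ (y : ℕ) = z then 1 else 0)
          = ((Finset.univ : Finset (Fin (n + L))).filter
              fun y : Fin (n + L) => P ∧ (y : ℕ) = z).card := by
            rw [Finset.card_filter]
        _ ≤ 1 := by
            refine Finset.card_le_one.2 (fun u hu v hv => ?_)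
            exact Fin.ext ((Finset.mem_filter.1 hu).2.2.trans (Finset.mem_filter.1 hv).2.2.symm)
    · rw [if_neg hP]
      refine (Finset.sum_eq_zero (fun y _ => ?_)).le
      rw [if_neg (fun h => hP h.1)]
  have e : ∀ y : Fin (n + L), mv a n m L s x y =
      (if ((x < n ∧ s ≠ L) ∨ (n ≤ x ∧ s + 1 ≠ 2 * L)) ∧ (y : ℕ) = x then 1 else 0) +
      (if (s < L ∧ act a n m s ∧ x = src n m s) ∧ (y : ℕ) = n + s then 1 else 0) +
      (if (L ≤ s ∧ act a n m (s - L) ∧ x = n + (s - L)) ∧ (y : ℕ) = tgt n m (s - L)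
        then 1 else 0) := by
    intro y
    unfold mv
    congr 1
    · congr 1
      · simp only [and_comm]
      · simp only [and_assoc]
    · simp only [and_assoc]
  rw [Finset.sum_congr rfl (fun y _ => e y), Finset.sum_add_distrib, Finset.sum_add_distrib]
  exact Nat.add_le_add (Nat.add_le_add (sum1 _ 0 _) (sum1 _ 0 _)) (sum1 _ 0 _)

/-- the in-degree -/
theorem in_deg (a : ℕ → ℕ → ℕ) (n m L s : ℕ) (y : ℕ) :
    ∑ x : Fin (n + L), mv a n m L s x y ≤
      (if (y < n ∧ s ≠ L) ∨ (n ≤ y ∧ s + 1 ≠ 2 * L) then 1 else 0) +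
      (if s < L ∧ act a n m s ∧ y = n + s then 1 else 0) +
      (if L ≤ s ∧ act a n m (s - L) ∧ y = tgt n m (s - L) then 1 else 0) := by
  have sum1 : ∀ (z c : ℕ) (P : Prop) [Decidable P], ∑ y : Fin (n + L),
      (if P ∧ (y : ℕ) = z then 1 else 0) ≤ if P then 1 else 0 := by
    intro z c P _
    by_cases hP : P
    · rw [if_pos hP]
      calc ∑ y : Fin (n + L), (if P ∧ (y : ℕ) = z then 1 else 0)
          = ((Finset.univ : Finset (Fin (n + L))).filter
              fun y : Fin (n + L) => P ∧ (y : ℕ) = z).card := by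
            rw [Finset.card_filter]
        _ ≤ 1 := by
            refine Finset.card_le_one.2 (fun u hu v hv => ?_)
            exact Fin.ext ((Finset.mem_filter.1 hu).2.2.trans (Finset.mem_filter.1 hv).2.2.symm)
    · rw [if_neg hP]
      refine (Finset.sum_eq_zero (fun y _ => ?_)).le
      rw [if_neg (fun h => hP h.1)]
  have e : ∀ x : Fin (n + L), mv a n m L s x y =
      (if ((y < n ∧ s ≠ L) ∨ (n ≤ y ∧ s + 1 ≠ 2 * L)) ∧ (x : ℕ) = y then 1 else 0) +
      (if (s < L ∧ act a n m s ∧ y = n + s) ∧ (x : ℕ) = src n m s then 1 else 0) +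
      (if (L ≤ s ∧ act a n m (s - L) ∧ y = tgt n m (s - L)) ∧ (x : ℕ) = n + (s - L)
        then 1 else 0) := by
    intro x
    unfold mv
    congr 1
    · congr 1
      · refine if_congr ⟨fun h => ?_, fun h => ?_⟩ rfl rfl
        · obtain ⟨h1, h2⟩ := h
          rw [← h1] at h2
          exact ⟨h2, h1.symm⟩
        · obtain ⟨h1, h2⟩ := h
          rw [h2]
          exact ⟨rfl, h1⟩
      · refine if_congr ⟨fun h => ⟨⟨h.1, h.2.1, h.2.2.2⟩, h.2.2.1⟩,
          fun h => ⟨h.1.1, h.1.2.1, h.2, h.1.2.2⟩⟩ rfl rfl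
    · refine if_congr ⟨fun h => ⟨⟨h.1, h.2.1, h.2.2.2⟩, h.2.2.1⟩,
          fun h => ⟨h.1.1, h.1.2.1, h.2, h.1.2.2⟩⟩ rfl rfl
  rw [Finset.sum_congr rfl (fun y _ => e y), Finset.sum_add_distrib, Finset.sum_add_distrib]
  exact Nat.add_le_add (Nat.add_le_add (sum1 _ 0 _) (sum1 _ 0 _)) (sum1 _ 0 _)

theorem big_row (a : ℕ → ℕ → ℕ) (n m L : ℕ) [NeZero (2 * L)] (p : ZMod (2 * L) × Fin (n + L)) :
    ∑ q, big a n m L p q = ∑ y : Fin (n + L), mv a n m L p.1.val p.2 y := by
  rw [Fintype.sum_prod_type, Finset.sum_eq_single (p.1 + 1)]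
  · refine Finset.sum_congr rfl (fun y _ => ?_)
    show (if p.1 + 1 = p.1 + 1 then blk a n m L p.1.val p.2 y else 0) = _
    rw [if_pos rfl, blk_of (ZMod.val_lt _)]
  · intro b _ hb
    refine Finset.sum_eq_zero (fun y _ => ?_)
    show (if b = p.1 + 1 then blk a n m L p.1.val p.2 y else 0) = 0
    rw [if_neg hb]
  · simp

theorem big_col (a : ℕ → ℕ → ℕ) (n m L : ℕ) [NeZero (2 * L)] (p : ZMod (2 * L) × Fin (n + L)) :
    ∑ q, big a n m L q p = ∑ y : Fin (n + L), mv a n m L (p.1 - 1).val y p.2 := by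
  rw [Fintype.sum_prod_type, Finset.sum_eq_single (p.1 - 1)]
  · refine Finset.sum_congr rfl (fun y _ => ?_)
    show (if p.1 = p.1 - 1 + 1 then blk a n m L (p.1 - 1).val y p.2 else 0) = _
    rw [if_pos (by ring), blk_of (ZMod.val_lt _)]
  · intro b _ hb
    refine Finset.sum_eq_zero (fun y _ => ?_)
    show (if p.1 = b + 1 then blk a n m L b.val y p.2 else 0) = 0
    rw [if_neg]
    intro h
    exact hb (by rw [h]; ring)
  · simp

theorem val_sub_one (k : ℕ) [NeZero k] (i : ZMod k) :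
    (i - 1).val = if i.val = 0 then k - 1 else i.val - 1 := by
  have h := val_add_one (i - 1)
  rw [sub_add_cancel] at h
  have h1 := ZMod.val_lt (i - 1)
  have hk := NeZero.ne k
  split_ifs at h <;> split_ifs <;> omega

theorem act_last {a : ℕ → ℕ → ℕ} {n m e : ℕ} (ha : ∀ i j, a i j ≤ m) (h : n * n * m ≤ e) :
    ¬ act a n m e := by
  intro h'
  have h3 := h'.1
  unfold src at h3
  rcases Nat.eq_zero_or_pos m with hm | hm
  · subst hm
    have h4 := h'.2
    have h5 := ha (src n 0 e) (tgt n 0 e)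
    omega
  · rcases Nat.eq_zero_or_pos n with hn | hn
    · subst hn
      omega
    · rw [Nat.div_div_eq_div_mul, Nat.div_lt_iff_lt_mul (Nat.mul_pos hm hn)] at h3
      nlinarith

theorem big_deg (a : ℕ → ℕ → ℕ) (n m L : ℕ) [NeZero (2 * L)] (ha : ∀ i j, a i j ≤ m)
    (hL : 2 ≤ L) (hL' : n * n * m + 1 ≤ L) (p : ZMod (2 * L) × Fin (n + L)) :
    ∑ q, big a n m L p q + ∑ q, big a n m L q p ≤ 3 := by
  rw [big_row, big_col]
  obtain ⟨i, x, hx⟩ := p
  show ∑ y : Fin (n + L), mv a n m L i.val x y +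
    ∑ y : Fin (n + L), mv a n m L (i - 1).val y x ≤ 3
  have h1 := out_deg a n m L i.val x
  have h2 := in_deg a n m L (i - 1).val x
  have hs := ZMod.val_lt i
  rw [val_sub_one] at h2
  rw [val_sub_one]
  generalize i.val = s at *
  refine (Nat.add_le_add h1 h2).trans ?_
  clear h1 h2
  show (if (x < n ∧ s ≠ L) ∨ (n ≤ x ∧ s + 1 ≠ 2 * L) then 1 else 0) +
      (if s < L ∧ act a n m s ∧ x = src n m s then 1 else 0) +
      (if L ≤ s ∧ act a n m (s - L) ∧ x = n + (s - L) then 1 else 0) +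
    ((if (x < n ∧ (if s = 0 then 2 * L - 1 else s - 1) ≠ L) ∨
        (n ≤ x ∧ (if s = 0 then 2 * L - 1 else s - 1) + 1 ≠ 2 * L) then 1 else 0) +
      (if (if s = 0 then 2 * L - 1 else s - 1) < L ∧
        act a n m (if s = 0 then 2 * L - 1 else s - 1) ∧
        x = n + (if s = 0 then 2 * L - 1 else s - 1) then 1 else 0) +
      (if L ≤ (if s = 0 then 2 * L - 1 else s - 1) ∧
        act a n m ((if s = 0 then 2 * L - 1 else s - 1) - L) ∧
        x = tgt n m ((if s = 0 then 2 * L - 1 else s - 1) - L) then 1 else 0)) ≤ 3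
  have hact : ¬ act a n m (L - 1) := act_last ha (by omega)
  generalize ht : (if s = 0 then 2 * L - 1 else s - 1) = t
  have ht' : (s = 0 ∧ t = 2 * L - 1) ∨ (s = t + 1) := by
    split_ifs at ht <;> omega
  have le1 : ∀ (P : Prop) [Decidable P], (if P then 1 else 0 : ℕ) ≤ 1 := by
    intro P _; split_ifs <;> omega
  -- the third and the fifth terms
  rcases Nat.lt_or_ge x n with hxn | hxn
  · have c3 : ¬ (L ≤ s ∧ act a n m (s - L) ∧ x = n + (s - L)) := fun h => by omega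
    have c5 : ¬ (t < L ∧ act a n m t ∧ x = n + t) := fun h => by omega
    rw [if_neg c3, if_neg c5]
    have h1 := le1 ((x < n ∧ s ≠ L) ∨ (n ≤ x ∧ s + 1 ≠ 2 * L))
    have h2 := le1 (s < L ∧ act a n m s ∧ x = src n m s)
    have h3 := le1 ((x < n ∧ t ≠ L) ∨ (n ≤ x ∧ t + 1 ≠ 2 * L))
    have h4 := le1 (L ≤ t ∧ act a n m (t - L) ∧ x = tgt n m (t - L))
    by_cases hsL : s < L
    · have c6 : ¬ (L ≤ t ∧ act a n m (t - L) ∧ x = tgt n m (t - L)) := by
        rintro ⟨g1, g2, g3⟩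
        rcases ht' with ⟨_, h⟩ | h
        · rw [h, show 2 * L - 1 - L = L - 1 by omega] at g2
          exact hact g2
        · omega
      rw [if_neg c6]
      omega
    · have c2 : ¬ (s < L ∧ act a n m s ∧ x = src n m s) := fun h => hsL h.1
      rw [if_neg c2]
      omega
  · have c2 : ¬ (s < L ∧ act a n m s ∧ x = src n m s) := fun h => by
      have := h.2.1.1
      omega
    have c6 : ¬ (L ≤ t ∧ act a n m (t - L) ∧ x = tgt n m (t - L)) := fun h => by
      have := tgt_lt h.2.1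
      omega
    rw [if_neg c2, if_neg c6]
    have h1 := le1 ((x < n ∧ s ≠ L) ∨ (n ≤ x ∧ s + 1 ≠ 2 * L))
    have h2 := le1 (L ≤ s ∧ act a n m (s - L) ∧ x = n + (s - L))
    have h3 := le1 ((x < n ∧ t ≠ L) ∨ (n ≤ x ∧ t + 1 ≠ 2 * L))
    have h4 := le1 (t < L ∧ act a n m t ∧ x = n + t)
    by_cases c3 : L ≤ s ∧ act a n m (s - L) ∧ x = n + (s - L)
    · have c5 : ¬ (t < L ∧ act a n m t ∧ x = n + t) := fun h => by omega
      rw [if_neg c5]
      omega
    · rw [if_neg c3]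
      omega

/-- no short cycles -/
theorem big_girth (a : ℕ → ℕ → ℕ) (n m L g : ℕ) [NeZero (2 * L)] (hg : g ≤ 2 * L) (j : ℕ)
    (h0 : 0 < j) (hj : j < g) : (big a n m L ^ j).trace = 0 := by
  unfold Matrix.trace
  refine Finset.sum_eq_zero (fun p _ => ?_)
  show (big a n m L ^ j) p p = 0
  unfold big
  rw [cyc_pow, if_neg]
  intro h
  have h1 : (j : ZMod (2 * L)) = 0 := by
    have : p.1 + (j : ZMod (2 * L)) = p.1 + 0 := by rw [add_zero]; exact h.symm
    exact add_left_cancel this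
  have h2 := (ZMod.natCast_eq_zero_iff j (2 * L)).1 h1
  have := Nat.le_of_dvd h0 h2
  omega

end Pool.Agent.Q126.SE
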