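import Pool.Agent.Q126.SE.Ess

set_option autoImplicit false

namespace Pool.Agent.Q126.SE

open Matrix Finset

variable {V W J : Type} [Fintype V] [Fintype W] [Fintype J] [DecidableEq V] [DecidableEq W]
  [DecidableEq J]

theorem El.step {k : ℕ} (hk : k ≠ 0) {A : Matrix V V ℕ} {B : Matrix J J ℕ} (h : El A B)
    (c : V → ZMod k) (hc : Graded A k c) :
    ∃ c' : J → ZMod k, Graded B k c' ∧ El (ret A k c) (ret B k c') := by
  obtain ⟨R, S, h1, h2⟩ := h
  subst h1 h2
  exact SE.step hk R S c hc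

theorem two {k : ℕ} (hk : k ≠ 0) (D : Matrix V V ℕ) (c c' : V → ZMod k) (hc : Graded D k c)
    (hc' : Graded D k c') : El (ret D k c) (ret D k c') := by
  have : NeZero k := ⟨hk⟩
  let h : V → ZMod k := fun v => c' v - c v
  let a : V → ℕ := fun v => (-(h v)).val
  have hak : ∀ v, a v ≤ k := fun v => (ZMod.val_lt _).le
  have hac : ∀ v, ((a v : ℕ) : ZMod k) = -(h v) := fun v => ZMod.natCast_zmod_val _
  have hac' : ∀ v, ((k - a v : ℕ) : ZMod k) = h v := fun v => by
    rw [Nat.cast_sub (hak v), hac, ZMod.natCast_self]; ring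
  have hw : ∀ N v w, Ess D v → Ess D w → (D ^ N) v w ≠ 0 → h w = h v := by
    intro N v w hv hw' hn
    show c' w - c w = c' v - c v
    rw [hc.walk N v w hv hw' hn, hc'.walk N v w hv hw' hn]; ring
  have ha : ∀ N v w, Ess D v → Ess D w → (D ^ N) v w ≠ 0 → a w = a v := by
    intro N v w hv hw' hn
    show (-(h w)).val = (-(h v)).val
    rw [hw N v w hv hw' hn]
  refine ⟨fun v w => (D ^ a v.1) v.1 w.1, fun w v => (D ^ (k - a w.1)) w.1 v.1, ?_, ?_⟩
  · ext v v'
    obtain ⟨v, hv, hv0⟩ := v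
    obtain ⟨v', hv', hv0'⟩ := v'
    show (D ^ k) v v' = ∑ w : Sb (fun v => Ess D v ∧ c' v = 0),
      (D ^ a v) v w.1 * (D ^ (k - a w.1)) w.1 v'
    have e1 : ∀ w : Sb (fun v => Ess D v ∧ c' v = 0),
        (D ^ a v) v w.1 * (D ^ (k - a w.1)) w.1 v' = (D ^ a v) v w.1 * (D ^ (k - a v)) w.1 v' := by
      intro w
      by_cases hz : (D ^ a v) v w.1 = 0
      · rw [hz, zero_mul, zero_mul]
      · rw [ha _ v w.1 hv w.2.1 hz]
    rw [Finset.sum_congr rfl (fun w _ => e1 w),
      sum_sb (fun v => Ess D v ∧ c' v = 0) (fun w => (D ^ a v) v w * (D ^ (k - a v)) w v')]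
    · rw [← Matrix.mul_apply, ← pow_add, Nat.add_sub_cancel' (hak v)]
    · intro w hw1
      have g1 := left_ne_zero_of_mul hw1
      have g2 := right_ne_zero_of_mul hw1
      have hwe : Ess D w := ⟨fwd_of g2 hv'.1, bwd_of g1 hv.2⟩
      refine ⟨hwe, ?_⟩
      rw [hc'.walk _ v w hv hwe g1, hac]
      show c' v + -(c' v - c v) = 0
      rw [hv0]; ring
  · ext w w'
    obtain ⟨w, hw1, hw0⟩ := w
    obtain ⟨w', hw1', hw0'⟩ := w'
    show (D ^ k) w w' = ∑ v : Sb (fun v => Ess D v ∧ c v = 0),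
      (D ^ (k - a w)) w v.1 * (D ^ a v.1) v.1 w'
    have e1 : ∀ v : Sb (fun v => Ess D v ∧ c v = 0),
        (D ^ (k - a w)) w v.1 * (D ^ a v.1) v.1 w' = (D ^ (k - a w)) w v.1 * (D ^ a w) v.1 w' := by
      intro v
      by_cases hz : (D ^ (k - a w)) w v.1 = 0
      · rw [hz, zero_mul, zero_mul]
      · rw [ha _ w v.1 hw1 v.2.1 hz]
    rw [Finset.sum_congr rfl (fun v _ => e1 v),
      sum_sb (fun v => Ess D v ∧ c v = 0) (fun v => (D ^ (k - a w)) w v * (D ^ a w) v w')]
    · rw [← Matrix.mul_apply, ← pow_add, Nat.sub_add_cancel (hak w)]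
    · intro v hv1
      have g1 := left_ne_zero_of_mul hv1
      have g2 := right_ne_zero_of_mul hv1
      have hve : Ess D v := ⟨fwd_of g2 hw1'.1, bwd_of g1 hw1.2⟩
      refine ⟨hve, ?_⟩
      rw [hc.walk _ w v hw1 hve g1, hac']
      show c w + (c' w - c w) = 0
      rw [hw0]; ring

theorem chain {k : ℕ} (hk : k ≠ 0) {X Y : SqMat} (h : SSE X Y) (c : Fin X.1 → ZMod k)
    (hc : Graded X.2 k c) :
    ∃ c' : Fin Y.1 → ZMod k, Graded Y.2 k c' ∧ Sh (ret X.2 k c) (ret Y.2 k c') := by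
  unfold SSE at h
  induction h with
  | single h =>
    obtain ⟨c', h1, h2⟩ := El.step hk (A := X.2) h c hc
    exact ⟨c', h1, h2.sh⟩
  | tail _ h ih =>
    obtain ⟨c1, g1, g2⟩ := ih
    obtain ⟨c', h1, h2⟩ := El.step hk h c1 g1
    exact ⟨c', h1, g2.trans h2.sh⟩

theorem el_fin (A : Matrix V V ℕ) : El A (fin A).2 := el_reindex A (Fintype.equivFin V).symm

theorem inv_sh {k : ℕ} (hk : k ≠ 0) {A : Matrix V V ℕ} {B : Matrix W W ℕ} (h : Sh A B)
    (c : V → ZMod k) (c' : W → ZMod k) (hc : Graded A k c) (hc' : Graded B k c') :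
    Sh (ret A k c) (ret B k c') := by
  obtain ⟨c0, h0, e0⟩ := (el_fin A).step hk c hc
  obtain ⟨c1, h1, e1⟩ := chain hk h c0 h0
  obtain ⟨c2, h2, e2⟩ := (el_fin B).symm.step hk c1 h1
  exact ((e0.sh.trans e1).trans e2.sh).trans (two hk B c2 c' h2 hc').sh

theorem ret_one (A : Matrix V V ℕ) (c : V → ZMod 1) : El (ret A 1 c) (sub A (Ess A)) := by
  classical
  let e : Sb (Ess A) ≃ Sb (fun v => Ess A v ∧ c v = 0) :=
    { toFun := fun x => ⟨x.1, x.2, Subsingleton.elim _ _⟩
      invFun := fun x => ⟨x.1, x.2.1⟩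
      left_inv := fun _ => rfl
      right_inv := fun _ => rfl }
  have h := el_reindex (ret A 1 c) e
  have e1 : (ret A 1 c).submatrix e e = sub A (Ess A) := by
    ext x y
    show (A ^ 1) x.1 y.1 = A x.1 y.1
    rw [pow_one]
  rwa [e1] at h

theorem El.ess {A : Matrix V V ℕ} {B : Matrix J J ℕ} (h : El A B) :
    Sh (sub A (Ess A)) (sub B (Ess B)) := by
  obtain ⟨c', _, h2⟩ := h.step one_ne_zero (fun _ => 0) (fun _ _ _ _ _ => Subsingleton.elim _ _)
  exact ((ret_one A _).symm.sh.trans h2.sh).trans (ret_one B c').sh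

theorem fwd_all (A : Matrix V V ℕ) (h : ∀ v, ∃ w, A v w ≠ 0) (v : V) : Fwd A v := by
  intro N
  induction N with
  | zero => exact ⟨v, by simp⟩
  | succ N ih =>
    obtain ⟨w, hw⟩ := ih
    obtain ⟨x, hx⟩ := h w
    exact ⟨x, pow_ne_iff.2 ⟨w, hw, by rwa [pow_one]⟩⟩

theorem bwd_all (A : Matrix V V ℕ) (h : ∀ v, ∃ w, A w v ≠ 0) (v : V) : Bwd A v := by
  have := fwd_all Aᵀ h v
  rwa [fwd_iff_transpose, Matrix.transpose_transpose] at this

theorem el_row (A : Matrix V V ℕ) (v : V) (h : ∀ w, A v w = 0) :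
    El A (sub A fun x => x ≠ v) := by
  refine ⟨fun x y => if x = y.1 then 1 else 0, fun y x => A y.1 x, ?_, ?_⟩
  · ext x z
    show A x z = ∑ y : Sb (fun x => x ≠ v), (if x = y.1 then 1 else 0) * A y.1 z
    by_cases hx : x = v
    · subst hx
      rw [h z, eq_comm]
      refine Finset.sum_eq_zero (fun y _ => ?_)
      rw [if_neg (fun e => y.2 e.symm), zero_mul]
    · rw [sum_sb (fun x => x ≠ v) (fun y => (if x = y then 1 else 0) * A y z)]
      · simp
      · intro y hy hyv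
        subst hyv
        simp [hx] at hy
  · ext y y'
    show A y.1 y'.1 = ∑ x, A y.1 x * (if x = y'.1 then 1 else 0)
    simp

theorem el_col (A : Matrix V V ℕ) (v : V) (h : ∀ w, A w v = 0) :
    El A (sub A fun x => x ≠ v) := by
  obtain ⟨R, S, h1, h2⟩ := el_row Aᵀ v h
  refine ⟨Sᵀ, Rᵀ, ?_, ?_⟩
  · rw [← Matrix.transpose_mul, ← h1, Matrix.transpose_transpose]
  · rw [← Matrix.transpose_mul, ← h2]; rfl

theorem sh_ess : ∀ (n : ℕ) (V : Type) [Fintype V] [DecidableEq V] (A : Matrix V V ℕ),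
    Fintype.card V = n → Sh A (sub A (Ess A)) := by
  intro n
  induction n using Nat.strong_induction_on with
  | _ n ih =>
    intro V _ _ A hn
    classical
    by_cases hall : ∀ v, Ess A v
    · let e : Sb (Ess A) ≃ V :=
        { toFun := fun x => x.1
          invFun := fun x => ⟨x, hall x⟩
          left_inv := fun _ => rfl
          right_inv := fun _ => rfl }
      have h := el_reindex A e
      exact h.sh
    · have hex : ∃ v, (∀ w, A v w = 0) ∨ (∀ w, A w v = 0) := by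
        by_contra hc
        push Not at hc
        exact hall (fun v => ⟨fwd_all A (fun v => (hc v).1) v, bwd_all A (fun v => (hc v).2) v⟩)
      obtain ⟨v, hv⟩ := hex
      have hel : El A (sub A fun x => x ≠ v) := by
        rcases hv with hv | hv
        · exact el_row A v hv
        · exact el_col A v hv
      have hcard : Fintype.card (Sb fun x : V => x ≠ v) < n := by
        rw [← hn]
        refine Fintype.card_lt_of_injective_of_notMem Sb.val (Sb.inj _) (b := v) ?_
        rintro ⟨x, hx⟩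
        exact x.2 hx
      have h1 := ih _ hcard (Sb fun x : V => x ≠ v) (sub A fun x => x ≠ v) rfl
      exact (hel.sh.trans h1).trans hel.symm.ess

theorem Sh.of_ess {A : Matrix V V ℕ} {B : Matrix W W ℕ} (h : Sh (sub A (Ess A)) (sub B (Ess B))) :
    Sh A B :=
  ((sh_ess _ V A rfl).trans h).trans (sh_ess _ W B rfl).symm

end Pool.Agent.Q126.SE
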